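import Pool.Agent.UNI.Greedy

/-!
# UNI: the Cayley transform
-/

set_option autoImplicit false

namespace Pool.Agent.UNI

open Pool.Agent.MP_d12f76_al

section cir

variable {A : Type*} [NonUnitalRing A]

/-- The circle operation. -/
def cir (x y : A) : A := x + y + x * y

theorem cir_assoc (x y z : A) : cir (cir x y) z = cir x (cir y z) := by
  simp only [cir, add_mul, mul_add, mul_assoc]
  abel

theorem cir_zero (x : A) : cir x 0 = x := by simp [cir]

theorem zero_cir (x : A) : cir 0 x = x := by simp [cir]

theorem cir_unique {x y z : A} (h1 : cir y x = 0) (h2 : cir x z = 0) : z = y := by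
  rw [← zero_cir z, ← h1, cir_assoc, h2, cir_zero]

theorem cir_left (hq : ∀ x : A, ∃ y, x + y + x * y = 0) {x y : A} (h : cir x y = 0) :
    cir y x = 0 := qleft hq h

theorem half_exists [Finite A] (hodd : Odd (Nat.card A)) (u : A) : ∃ w : A, w + w = u := by
  have hinj : Function.Injective (fun w : A => w + w) := by
    intro x y hxy
    have h1 : x + x = y + y := hxy
    have h2 : (x - y) + (x - y) = 0 := by
      have : (x - y) + (x - y) = (x + x) - (y + y) := by abel
      rw [this, h1, sub_self]
    exact sub_eq_zero.1 (half_zero hodd h2)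
  exact (Finite.injective_iff_surjective.1 hinj) u

theorem half_inj (hodd : Odd (Nat.card A)) {x y : A} (h : x + x = y + y) : x = y := by
  have h2 : (x - y) + (x - y) = 0 := by
    have : (x - y) + (x - y) = (x + x) - (y + y) := by abel
    rw [this, h, sub_self]
  exact sub_eq_zero.1 (half_zero hodd h2)

/-- The parameter of the half of a product. -/
theorem half_prod {q1 q2 x y : A} (h1 : cir q1 x = 0) (h2 : cir y q2 = 0) :
    cir (cir q1 (x * y)) q2 = q1 + q2 + (q1 * q2 + q1 * q2) := by
  have e1 : x + q1 * x = -q1 := by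
    have : q1 + (x + q1 * x) = 0 := by
      rw [← add_assoc]
      exact h1
    exact (neg_eq_of_add_eq_zero_right this).symm
  have e2 : y + y * q2 = -q2 := by
    have : q2 + (y + y * q2) = y + q2 + y * q2 := by abel
    have h3 : q2 + (y + y * q2) = 0 := this.trans h2
    exact (neg_eq_of_add_eq_zero_right h3).symm
  have e3 : cir (cir q1 (x * y)) q2 = q1 + q2 + q1 * q2 + (x + q1 * x) * (y + y * q2) := by
    simp only [cir, add_mul, mul_add, mul_assoc]
    abel
  rw [e3, e1, e2, neg_mul_neg, add_assoc]

/-- Cayley parameters of products. -/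
theorem prod_param {q1 q2 x y r : A} (h1 : cir q1 x = 0) (h2 : cir y q2 = 0)
    (h2' : cir q2 y = 0) (hr : cir (x * y) r = 0) :
    cir (q1 + q2 + (q1 * q2 + q1 * q2)) (cir (cir y r) x) = 0 := by
  rw [← half_prod h1 h2, cir_assoc, cir_assoc, ← cir_assoc q2, ← cir_assoc q2, h2', zero_cir,
    ← cir_assoc (x * y), hr, zero_cir, h1]

variable [StarRing A]

theorem unit_key {q x : A} (h : cir x q = 0) :
    (q + star q + (q * star q + q * star q)) + x * (q + star q + (q * star q + q * star q)) +
      (q + star q + (q * star q + q * star q)) * star x +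
      x * ((q + star q + (q * star q + q * star q)) * star x) = -x - star x := by
  have hA : x * q = -x - q := by
    have h0 : x + q + x * q = 0 := h
    have : x * q = (x + q + x * q) - x - q := by abel
    rw [this, h0, zero_sub]
  have hA' : ∀ r, x * (q * r) = -(x * r) - q * r := by
    intro r
    rw [← mul_assoc, hA, sub_mul, neg_mul]
  have hB : star q * star x = -star x - star q := by
    have := congrArg star hA
    rw [star_mul, star_sub, star_neg] at this
    exact this
  simp only [mul_add, add_mul, mul_assoc, hA, hA', hB, mul_sub, mul_neg]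
  abel

theorem skew_of_unit (hodd : Odd (Nat.card A)) {q x : A} (h : cir x q = 0)
    (hu : (q + q) + star (q + q) + (q + q) * star (q + q) = 0) : x ∈ Am A := by
  have h1 : q + star q + (q * star q + q * star q) = 0 := by
    refine half_zero hodd ?_
    rw [← hu, star_add]
    simp only [add_mul, mul_add]
    abel
  have h2 := unit_key h
  rw [h1] at h2
  simp only [mul_zero, zero_mul, add_zero] at h2
  rw [mem_Am]
  have : star x = -x - (-x - star x) := by abel
  rw [this, ← h2, sub_zero]

theorem unit_of_skew {q x : A} (h : cir x q = 0) (h' : cir q x = 0) (hx : x ∈ Am A) :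
    (q + q) + star (q + q) + (q + q) * star (q + q) = 0 := by
  have h2 := unit_key h
  rw [mem_Am.1 hx, sub_neg_eq_add, neg_add_cancel] at h2
  set s := q + star q + (q * star q + q * star q) with hs
  -- multiply back
  have hC : q * x = -q - x := by
    have h0 : q + x + q * x = 0 := h'
    have : q * x = (q + x + q * x) - q - x := by abel
    rw [this, h0, zero_sub]
  have hC' : ∀ r, q * (x * r) = -(q * r) - x * r := by
    intro r
    rw [← mul_assoc, hC, sub_mul, neg_mul]
  have hD : x * star q = star q - x := by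
    have := congrArg star hC
    rw [star_mul, star_sub, star_neg, mem_Am.1 hx, neg_mul] at this
    have h3 : x * star q = -(-star q - -x) := by rw [← this, neg_neg]
    rw [h3]
    abel
  have h3 : s = (s + x * s + s * -x + x * (s * -x)) + q * (s + x * s + s * -x + x * (s * -x)) +
      (s + x * s + s * -x + x * (s * -x)) * star q +
      q * ((s + x * s + s * -x + x * (s * -x)) * star q) := by
    generalize s = s'
    simp only [mul_add, add_mul, mul_assoc, hC', hD, mul_neg, neg_mul, mul_sub, neg_neg]
    abel
  rw [h2, mul_zero, zero_mul, mul_zero, add_zero, add_zero, add_zero] at h3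
  have e : (q + q) + star (q + q) + (q + q) * star (q + q) = s + s := by
    rw [hs, star_add]
    simp only [add_mul, mul_add]
    abel
  rw [e, h3, add_zero]

theorem prod_mem (hodd : Odd (Nat.card A)) {E F : AddSubgroup A} (hEF : Sec E F) {x y r w : A}
    (hx : x ∈ E) (hy : y ∈ E) (hr : cir r (x * y) = 0) (hw : w = cir (cir y r) x)
    (hwA : w ∈ Am A) : w - x - y ∈ F := by
  have h1 := hEF.2.2 x hx y hy r hr
  have h2 : w - x - y = y * x + r + y * r + r * x + y * r * x := by
    rw [hw]
    simp only [cir, add_mul]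
    abel
  have h3 : w - x - y ∈ Am A := sub_mem (sub_mem hwA (hEF.2.1 hx)) (hEF.2.1 hy)
  rw [← h2, sk_apply, mem_Am.1 h3, sub_neg_eq_add] at h1
  exact half_mem hodd h1

end cir

section group

variable {G A : Type*} [Group G] [NonUnitalRing A] [StarRing A] [Finite A]

/-- The Cayley parameter: existence. -/
theorem exists_X (hodd : Odd (Nat.card A)) (hq : ∀ x : A, ∃ y, x + y + x * y = 0)
    (e : G → A) (hr : ∀ x, x ∈ Set.range e ↔ x + star x + x * star x = 0) (g : G) :
    ∃ x q : A, q + q = e g ∧ cir q x = 0 ∧ cir x q = 0 ∧ x ∈ Am A := by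
  obtain ⟨q, hq1⟩ := half_exists hodd (e g)
  obtain ⟨x, hx⟩ := hq q
  have hx' : cir x q = 0 := cir_left hq hx
  refine ⟨x, q, hq1, hx, hx', skew_of_unit hodd hx' ?_⟩
  rw [hq1]
  exact (hr _).1 ⟨g, rfl⟩

/-- The properties of the Cayley parameter which the group theory needs. -/
theorem exists_param (hodd : Odd (Nat.card A)) (hq : ∀ x : A, ∃ y, x + y + x * y = 0)
    (e : G → A) (hinj : Function.Injective e) (he : ∀ g h : G, e (g * h) = e g + e h + e g * e h)
    (hr : ∀ x, x ∈ Set.range e ↔ x + star x + x * star x = 0) :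
    ∃ X : G → A, Function.Injective X ∧ (∀ g, X g ∈ Am A) ∧ (∀ x ∈ Am A, ∃ g, X g = x) ∧
      X 1 = 0 ∧ ∀ E F : AddSubgroup A, Sec E F → ∀ g h : G, X g ∈ E → X h ∈ E →
        X (g * h) - X g - X h ∈ F := by
  choose X Q hQ h1 h2 hX using exists_X hodd hq e hr
  refine ⟨X, ?_, hX, ?_, ?_, ?_⟩
  · intro g h hgh
    have : Q h = Q g := by
      refine cir_unique (h1 g) ?_
      rw [hgh]
      exact h2 h
    exact hinj (by rw [← hQ g, ← hQ h, this])
  · intro x hx
    obtain ⟨q, hq1⟩ := hq x
    have hq1' : cir x q = 0 := hq1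
    have hq2 : cir q x = 0 := cir_left hq hq1
    obtain ⟨g, hg⟩ := (hr (q + q)).2 (unit_of_skew hq1' hq2 hx)
    refine ⟨g, ?_⟩
    have e1 : Q g = q := half_inj hodd (by rw [hQ, hg])
    refine (cir_unique (y := X g) (x := q) (z := x) ?_ hq2).symm
    rw [← e1]
    exact h2 g
  · have e1 : e 1 = 0 := by
      have h := he 1 1
      rw [one_mul] at h
      obtain ⟨y, hy⟩ := hq (e 1)
      have h3 : cir (e 1) (e 1) = e 1 := h.symm
      have h4 : cir (cir (e 1) (e 1)) y = cir (e 1) y := by rw [h3]
      have h5 : cir (e 1) y = 0 := hy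
      rw [cir_assoc, h5, cir_zero] at h4
      exact h4
    have e2 : Q 1 = 0 := half_zero hodd (by rw [hQ, e1])
    have e3 := h1 1
    rw [e2, zero_cir] at e3
    exact e3
  · intro E F hEF g h hg hh
    obtain ⟨r, hr1⟩ := hq (X g * X h)
    have hr2 : cir r (X g * X h) = 0 := cir_left hq hr1
    have e1 : Q (g * h) = Q g + Q h + (Q g * Q h + Q g * Q h) := by
      refine half_inj hodd ?_
      rw [hQ, he, ← hQ g, ← hQ h]
      simp only [add_mul, mul_add]
      abel
    have e2 := prod_param (h1 g) (h2 h) (h1 h) hr1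
    rw [← e1] at e2
    have e3 : cir (cir (X h) r) (X g) = X (g * h) := cir_unique (h2 (g * h)) e2
    exact prod_mem hodd hEF hg hh hr2 e3.symm (hX _)

end group

end Pool.Agent.UNI
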