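import Pool.Agent.MP_d12f76_al.Core

/-!
# UNI: unitary adjoint groups, definitions and basic lemmas
-/

set_option autoImplicit false

namespace Pool.Agent.UNI

open Pool.Agent.MP_d12f76_al

section general

variable {M M' : Type*} [AddCommGroup M] [AddCommGroup M']

/-- `|N| = |N ∩ ker T| |T N|`. -/
theorem cardSplit (T : M →+ M') (N : AddSubgroup M) :
    Nat.card N = Nat.card (N ⊓ T.ker : AddSubgroup M) * Nat.card (N.map T) := by
  have h1 : Nat.card (N ⊓ T.ker : AddSubgroup M) * (N ⊓ T.ker).relIndex N = Nat.card N := by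
    rw [← AddSubgroup.relIndex_bot_left, ← AddSubgroup.relIndex_bot_left N]
    exact AddSubgroup.relIndex_mul_relIndex _ _ _ bot_le inf_le_left
  rw [AddSubgroup.inf_relIndex_left, AddSubgroup.relIndex_ker] at h1
  exact h1.symm

/-- Halving in groups of odd order. -/
theorem half_mem (hodd : Odd (Nat.card M)) {F : AddSubgroup M} {x : M} (h : x + x ∈ F) :
    x ∈ F := by
  obtain ⟨m, hm⟩ := hodd
  have h1 : (m + 1) • (x + x) = x := by
    have h2 : (2 * m + 1) • x = 0 := by
      rw [← hm]
      exact card_nsmul_eq_zero'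
    have h3 : (m + 1) • (x + x) = (2 * m + 1) • x + x := by
      rw [← two_nsmul, ← mul_nsmul', ← succ_nsmul]
      congr 1
      ring
    rw [h3, h2, zero_add]
  rw [← h1]
  exact F.nsmul_mem h _

theorem half_zero (hodd : Odd (Nat.card M)) {x : M} (h : x + x = 0) : x = 0 := by
  have h1 : x ∈ (⊥ : AddSubgroup M) := half_mem hodd (by rw [h]; exact zero_mem _)
  exact h1

end general

section ring

variable {A : Type*} [NonUnitalRing A]

/-- All left and right multiplications are nilpotent if all elements are quasi-invertible. -/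
theorem nil [Finite A] (hq : ∀ x : A, ∃ y, x + y + x * y = 0) (z : A) :
    ∃ k, (∀ x, (Lm z)^[k] x = 0) ∧ ∀ x, (Rm z)^[k] x = 0 := by
  obtain ⟨i, j, hij, hf⟩ : ∃ i j : ℕ, i < j ∧ (Lm z : A → A)^[i] = (Lm z : A → A)^[j] := by
    obtain ⟨i, j, hne, hf⟩ := Finite.exists_ne_map_eq_of_infinite
      (fun n : ℕ => ((Lm z : A → A)^[n] : A → A))
    rcases lt_or_gt_of_ne hne with h | h
    · exact ⟨i, j, h, hf⟩
    · exact ⟨j, i, h, hf.symm⟩
  obtain ⟨d, rfl⟩ := Nat.exists_eq_add_of_lt hij
  have per : ∀ n, i ≤ n → ∀ t : ℕ, (Lm z : A → A)^[n + t * (d + 1)] = (Lm z : A → A)^[n] := by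
    intro n hn t
    induction t with
    | zero => simp
    | succ t ih =>
      obtain ⟨m, rfl⟩ := Nat.exists_eq_add_of_le hn
      have h1 : i + m + (t + 1) * (d + 1) = (m + t * (d + 1)) + (i + d + 1) := by ring
      have h2 : i + m + t * (d + 1) = (m + t * (d + 1)) + i := by ring
      rw [h1, Function.iterate_add, ← hf, ← Function.iterate_add, ← h2, ih]
  set n := (i + 1) * (d + 1) with hn
  have hn1 : i ≤ n := by nlinarith
  have hn0 : 0 < n := by positivity
  have h2n : (Lm z : A → A)^[n + n] = (Lm z : A → A)^[n] := per n hn1 (i + 1)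
  set w : A := (Lm z)^[n - 1] z with hw
  have hwx : ∀ x, w * x = (Lm z)^[n] x := by
    intro x
    rw [hw, ← iter_mul]
    conv_rhs => rw [show n = (n - 1) + 1 by omega, Function.iterate_succ_apply]
    rfl
  have hww : ∀ x, w * (w * x) = w * x := by
    intro x
    rw [hwx, hwx, ← Function.iterate_add_apply, h2n]
  obtain ⟨y, hy⟩ := hq (-w)
  have hw2 : w * w = 0 := by
    have h3 : w * (-w + y + -w * y) = 0 := by
      rw [hy, mul_zero]
    rw [mul_add, mul_add, neg_mul, mul_neg, mul_neg, hww] at h3
    have h4 : -(w * w) = 0 := by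
      rw [add_neg_cancel_right] at h3
      exact h3
    exact neg_eq_zero.1 h4
  have hL : ∀ x, (Lm z)^[n + n] x = 0 := by
    intro x
    rw [Function.iterate_add_apply, ← hwx, ← hwx, ← mul_assoc, hw2, zero_mul]
  refine ⟨n + n + 1, fun x => ?_, fun x => ?_⟩
  · rw [Function.iterate_succ_apply, hL]
  · rw [Function.iterate_succ_apply']
    change (Rm z)^[n + n] x * z = 0
    rw [← mul_iter, hL, mul_zero]

/-- The quasi-inverse `r` of `c` lies in every additive subgroup containing `c` that is stable
under right multiplication by `c`. -/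
theorem qi_mem [Finite A] (hq : ∀ x : A, ∃ y, x + y + x * y = 0) {c r : A}
    (hr : r + c + r * c = 0) {S : AddSubgroup A} (hc : c ∈ S) (hS : ∀ s ∈ S, s * c ∈ S) :
    r ∈ S := by
  obtain ⟨k, -, hk⟩ := nil hq c
  have e1 : r = -c - r * c := by
    have h0 : r = (r + c + r * c) - c - r * c := by abel
    rw [hr, zero_sub] at h0
    exact h0
  have key : ∀ n, ∃ s ∈ S, r = s + (Rm c)^[n] r ∨ r = s - (Rm c)^[n] r := by
    intro n
    induction n with
    | zero => exact ⟨0, zero_mem _, Or.inl (by simp)⟩
    | succ n ih =>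
      obtain ⟨s, hs, h⟩ := ih
      rcases h with h | h
      · refine ⟨-c - s * c, sub_mem (neg_mem hc) (hS s hs), Or.inr ?_⟩
        have e2 : r * c = s * c + (Rm c)^[n + 1] r := by
          rw [Function.iterate_succ_apply']
          change r * c = s * c + (Rm c)^[n] r * c
          rw [← add_mul, ← h]
        rw [sub_sub, ← e2]
        exact e1
      · refine ⟨-c - s * c, sub_mem (neg_mem hc) (hS s hs), Or.inl ?_⟩
        have e2 : r * c = s * c - (Rm c)^[n + 1] r := by
          rw [Function.iterate_succ_apply']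
          change r * c = s * c - (Rm c)^[n] r * c
          rw [← sub_mul, ← h]
        rw [sub_add, ← e2]
        exact e1
  obtain ⟨s, hs, h⟩ := key k
  rcases h with h | h
  · rw [h, hk, add_zero]
    exact hs
  · rw [h, hk, sub_zero]
    exact hs

variable [StarRing A]

/-- `v ↦ v - v*`. -/
def sk : A →+ A where
  toFun v := v - star v
  map_zero' := by rw [star_zero, sub_zero]
  map_add' x y := by
    rw [star_add]
    abel

theorem sk_apply (v : A) : sk v = v - star v := rfl

theorem star_sk (v : A) : star (sk v) = -sk v := by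
  rw [sk_apply, star_sub, star_star, neg_sub]

/-- The skew elements. -/
def Am (A : Type*) [NonUnitalRing A] [StarRing A] : AddSubgroup A where
  carrier := {x | star x = -x}
  zero_mem' := by
    change star (0 : A) = -0
    rw [star_zero, neg_zero]
  add_mem' := by
    intro x y hx hy
    change star (x + y) = -(x + y)
    rw [star_add, hx, hy, neg_add]
  neg_mem' := by
    intro x hx
    change star (-x) = -(-x)
    rw [star_neg, hx]

theorem mem_Am {x : A} : x ∈ Am A ↔ star x = -x := Iff.rfl

theorem sk_mem (v : A) : sk v ∈ Am A := star_sk v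

/-- The pairs of additive subgroups which give abelian sections of the unitary group. -/
def Sec (E F : AddSubgroup A) : Prop :=
  F ≤ E ∧ E ≤ Am A ∧ ∀ x ∈ E, ∀ y ∈ E, ∀ r, r + x * y + r * (x * y) = 0 →
    sk (y * x + r + y * r + r * x + y * r * x) ∈ F

/-- Additive subgroups of skew elements with zero multiplication. -/
theorem sec_zero {U : AddSubgroup A} (hU : U ≤ Am A) (h : ∀ x ∈ U, ∀ y ∈ U, x * y = 0) :
    Sec U (⊥ : AddSubgroup A) := by
  refine ⟨bot_le, hU, fun x hx y hy r hr => ?_⟩
  rw [h x hx y hy, mul_zero, add_zero, add_zero] at hr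
  rw [h y hy x hx, hr]
  simp

theorem card_zero {a : ℕ} (ha : ∀ E F : AddSubgroup A, Sec E F → Nat.card E ≤ a * Nat.card F)
    {U : AddSubgroup A} (hU : U ≤ Am A) (h : ∀ x ∈ U, ∀ y ∈ U, x * y = 0) :
    Nat.card U ≤ a := by
  have := ha U ⊥ (sec_zero hU h)
  simpa using this

end ring

end Pool.Agent.UNI
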