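import Pool.Agent.UNI.Loewy

/-!
# UNI: the fourth Loewy layer and the bound for `x ↦ z x + x z*`
-/

set_option autoImplicit false

namespace Pool.Agent.UNI

open Pool.Agent.MP_d12f76_al

section words

variable {A : Type*} [NonUnitalRing A]

theorem zxz_mul {z x y : A} (h1 : z * (z * x) + x * z * z = 0)
    (h2 : z * (z * (x * z)) = z * (x * z * z) ∨ z * (z * (x * z)) = -(z * (x * z * z)))
    (h3 : z * (z * (z * (y * z))) = 0) : z * (x * z) * (z * (y * z)) = 0 := by
  have e1 : x * z * z = -(z * (z * x)) := (neg_eq_of_add_eq_zero_right h1).symm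
  have e2 : z * (x * z) * (z * (y * z)) = z * ((x * z * z) * (y * z)) := by
    simp only [mul_assoc]
  have e3 : z * ((x * z * z) * (y * z)) = -((z * (z * (z * x))) * (y * z)) := by
    rw [e1]
    simp only [mul_assoc, neg_mul, mul_neg]
  have e4 : z * (z * (x * z)) = -((x * z * z) * z) := by
    rw [e1]
    simp only [mul_assoc, neg_mul, neg_neg]
  have e5 : z * (x * z * z) = -(z * (z * (z * x))) := by
    rw [e1, mul_neg]
  have e6 : (x * z * z) * z * (y * z) = 0 := by
    have : (x * z * z) * z * (y * z) = x * (z * (z * (z * (y * z)))) := by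
      simp only [mul_assoc]
    rw [this, h3, mul_zero]
  rw [e2, e3]
  rw [e4, e5] at h2
  rcases h2 with h2 | h2
  · rw [← neg_inj.1 h2, e6, neg_zero]
  · rw [neg_neg] at h2
    rw [← h2, neg_mul, e6, neg_zero, neg_zero]

theorem uvu {z w x y t : A} (hw : w = z ∨ w = -z) (hx : z * (x * z) = 0)
    (hy : z * (y * z) = 0) (ht : z * (t * z) = 0) (hy2 : z * (z * y) + y * z * z = 0) :
    (z * x + x * w) * ((z * y + y * w) * (z * t + t * w)) = 0 := by
  have zr : ∀ {x : A}, z * (x * z) = 0 → ∀ r, z * (x * (z * r)) = 0 := by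
    intro x hx r
    have : z * (x * (z * r)) = z * (x * z) * r := by simp only [mul_assoc]
    rw [this, hx, zero_mul]
  have hx' := zr hx
  have hy' := zr hy
  have t3 : z * (x * (y * (z * (z * t)))) = 0 := by
    have e1 : y * z * z = -(z * (z * y)) := (neg_eq_of_add_eq_zero_right hy2).symm
    have e2 : z * (x * (y * (z * (z * t)))) = z * (x * ((y * z * z) * t)) := by
      simp only [mul_assoc]
    rw [e2, e1]
    have e3 : z * (x * (-(z * (z * y)) * t)) = -(z * (x * (z * (z * (y * t))))) := by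
      simp only [mul_assoc, neg_mul, mul_neg]
    rw [e3, hx', neg_zero]
  have t6 : x * (z * (z * (y * (t * z)))) = 0 := by
    have e1 : z * (z * y) = -(y * z * z) := eq_neg_of_add_eq_zero_left hy2
    have e2 : x * (z * (z * (y * (t * z)))) = x * ((z * (z * y)) * (t * z)) := by
      simp only [mul_assoc]
    rw [e2, e1]
    have e3 : x * (-(y * z * z) * (t * z)) = -(x * (y * (z * (z * (t * z))))) := by
      simp only [mul_assoc, neg_mul, mul_neg]
    rw [e3, ht, mul_zero, mul_zero, mul_zero, neg_zero]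
  rcases hw with rfl | rfl
  · simp only [add_mul, mul_add, mul_assoc, hx', hy', ht, t3, t6, mul_zero, add_zero]
  · simp only [add_mul, mul_add, mul_assoc, mul_neg, neg_mul, hx', hy', ht, t3, t6, mul_zero,
      add_zero, neg_zero]

end words

section ring

variable {A : Type*} [NonUnitalRing A] [StarRing A]

/-- `x ↦ u x + x u*`. -/
def tau (u : A) : A →+ A := Lm u + Rm (star u)

theorem tau_apply (u x : A) : tau u x = u * x + x * star u := rfl

theorem tau_add (u v : A) : tau (u + v) = tau u + tau v := by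
  ext x
  change (u + v) * x + x * star (u + v) = (u * x + x * star u) + (v * x + x * star v)
  rw [star_add, add_mul, mul_add]
  abel

theorem tau_Am {u x : A} (hx : x ∈ Am A) : tau u x ∈ Am A := by
  rw [mem_Am, tau_apply, star_add, star_mul, star_mul, star_star, mem_Am.1 hx, neg_mul, mul_neg,
    neg_add, add_comm]

variable [Finite A]

theorem map_card {M : Type*} [AddCommGroup M] [Finite M] (T : M →+ M) {X Y : AddSubgroup M}
    (h : X ≤ Y) : Nat.card (Y.map T) * Nat.card X ≤ Nat.card Y * Nat.card (X.map T) := by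
  rw [card_split T X, card_split T Y]
  have h1 : Nat.card (X ⊓ T.ker : AddSubgroup M) ≤ Nat.card (Y ⊓ T.ker : AddSubgroup M) :=
    card_le_of_le (inf_le_inf_right _ h)
  calc _ = Nat.card (X ⊓ T.ker : AddSubgroup M) * (Nat.card (Y.map T) * Nat.card (X.map T)) := by
        ring
    _ ≤ Nat.card (Y ⊓ T.ker : AddSubgroup M) * (Nat.card (Y.map T) * Nat.card (X.map T)) :=
        Nat.mul_le_mul_right _ h1
    _ = _ := by ring

/-- Groups `U` of skew elements with `U U U = 0` have order at most `a ^ 2`. -/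
theorem card_cube {a : ℕ} (ha : ∀ E F : AddSubgroup A, Sec E F → Nat.card E ≤ a * Nat.card F)
    {U : AddSubgroup A} (hU : U ≤ Am A) (h : ∀ u ∈ U, ∀ v ∈ U, ∀ w ∈ U, u * (v * w) = 0) :
    Nat.card U ≤ a ^ 2 := by
  set F : AddSubgroup A := AddSubgroup.closure {c | ∃ u ∈ U, ∃ v ∈ U, c = u * v - v * u} with hF
  have hFA : F ≤ Am A := by
    refine (AddSubgroup.closure_le _).2 ?_
    rintro c ⟨u, hu, v, hv, rfl⟩
    change star (u * v - v * u) = -(u * v - v * u)
    rw [star_sub, star_mul, star_mul, mem_Am.1 (hU hu), mem_Am.1 (hU hv), neg_mul_neg,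
      neg_mul_neg, neg_sub]
  have hFU : ∀ f ∈ F, ∀ w ∈ U, f * w = 0 := by
    intro f hf w hw
    have : F ≤ (Rm w).ker := by
      refine (AddSubgroup.closure_le _).2 ?_
      rintro c ⟨u, hu, v, hv, rfl⟩
      change (u * v - v * u) * w = 0
      rw [sub_mul, mul_assoc, mul_assoc, h u hu v hv w hw, h v hv u hu w hw, sub_zero]
    exact this hf
  have hUF : ∀ w ∈ U, ∀ f ∈ F, w * f = 0 := by
    intro w hw f hf
    have : F ≤ (Lm w).ker := by
      refine (AddSubgroup.closure_le _).2 ?_
      rintro c ⟨u, hu, v, hv, rfl⟩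
      change w * (u * v - v * u) = 0
      rw [mul_sub, h w hw u hu v hv, h w hw v hv u hu, sub_zero]
    exact this hf
  have hFF : ∀ f ∈ F, ∀ g ∈ F, f * g = 0 := by
    intro f hf g hg
    have : F ≤ (Lm f).ker := by
      refine (AddSubgroup.closure_le _).2 ?_
      rintro c ⟨u, hu, v, hv, rfl⟩
      change f * (u * v - v * u) = 0
      rw [mul_sub, ← mul_assoc, ← mul_assoc, hFU f hf u hu, hFU f hf v hv, zero_mul, zero_mul,
        sub_zero]
    exact this hg
  have hsec : Sec (U ⊔ F) F := by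
    refine ⟨le_sup_right, sup_le hU hFA, ?_⟩
    intro x hx y hy r hr
    obtain ⟨u, hu, f, hf, rfl⟩ := AddSubgroup.mem_sup.1 hx
    obtain ⟨v, hv, g, hg, rfl⟩ := AddSubgroup.mem_sup.1 hy
    have e1 : (u + f) * (v + g) = u * v := by
      rw [add_mul, mul_add, mul_add, hUF u hu g hg, hFU f hf v hv, hFF f hf g hg]
      simp
    have e2 : (v + g) * (u + f) = v * u := by
      rw [add_mul, mul_add, mul_add, hUF v hv f hf, hFU g hg u hu, hFF g hg f hf]
      simp
    rw [e1] at hr
    have e3 : u * v * (u * v) = 0 := by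
      have := h u hu v hv u hu
      rw [mul_assoc, ← mul_assoc v u v, ← mul_assoc u (v * u) v, this, zero_mul]
    have e4 : r * (u * v) = 0 := by
      have h5 : (r + u * v + r * (u * v)) * (u * v) = 0 := by rw [hr, zero_mul]
      rw [add_mul, add_mul, e3, mul_assoc r (u * v) (u * v), e3, mul_zero, add_zero,
        add_zero] at h5
      exact h5
    rw [e4, add_zero] at hr
    have hr' : r = -(u * v) := eq_neg_of_add_eq_zero_left hr
    have e5 : (v + g) * r = 0 := by
      rw [hr', mul_neg, add_mul, h v hv u hu v hv, ← mul_assoc g u v, hFU g hg u hu, zero_mul,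
        add_zero, neg_zero]
    have e6 : r * (u + f) = 0 := by
      rw [hr', neg_mul, mul_assoc, mul_add, hUF v hv f hf, add_zero, h u hu v hv u hu, neg_zero]
    rw [e2, e5, e6, zero_mul, add_zero, add_zero, add_zero, hr', ← sub_eq_add_neg]
    have hc : v * u - u * v ∈ F := AddSubgroup.subset_closure ⟨v, hv, u, hu, rfl⟩
    rw [sk_apply, mem_Am.1 (hFA hc), sub_neg_eq_add]
    exact add_mem hc hc
  have c1 := ha _ _ hsec
  have c2 : Nat.card F ≤ a := card_zero ha hFA hFF
  calc Nat.card U ≤ Nat.card (U ⊔ F : AddSubgroup A) := card_le_of_le le_sup_left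
    _ ≤ a * Nat.card F := c1
    _ ≤ a * a := Nat.mul_le_mul_left _ c2
    _ = a ^ 2 := by ring

theorem card_four (hq : ∀ x : A, ∃ y, x + y + x * y = 0) {a : ℕ}
    (ha : ∀ E F : AddSubgroup A, Sec E F → Nat.card E ≤ a * Nat.card F) {z : A}
    (hz : star z = z ∨ star z = -z) :
    Nat.card ((Lo (Am A) z 4).map (tau z)) ≤ a ^ 47 := by
  set N := Lo (Am A) z 4 with hN
  set s := Nat.card ((LH z).map sk) with hs
  have hsa : s ≤ a ^ 22 := card_skLH hq ha hz
  have hbot : Nat.card (⊥ : AddSubgroup A) = 1 := by simp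
  -- the common kernel
  set N2 : AddSubgroup A := N ⊓ (⊥ : AddSubgroup A).comap (tp z 2 0) ⊓
    (⊥ : AddSubgroup A).comap (tp z 2 1) with hN2
  have hcard2 : Nat.card N ≤ Nat.card N2 * s ^ 2 := by
    have b1 := one_step (tp z 2 0) N ((LH z).map sk) ⊥ bot_le
      (fun x hx => (tp_mem (l := 2) hx (by omega) (by omega)).1)
    have b2 := one_step (tp z 2 1) (N ⊓ (⊥ : AddSubgroup A).comap (tp z 2 0))
      ((LH z).map sk) ⊥ bot_le (fun x hx => (tp_mem (l := 2) hx.1 (by omega) (by omega)).1)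
    rw [hbot, mul_one] at b1 b2
    calc _ ≤ _ := b1
      _ ≤ (Nat.card N2 * s) * s := Nat.mul_le_mul_right _ b2
      _ = _ := by ring
  have facts : ∀ x ∈ N2, x ∈ Am A ∧ (z * (z * x) + x * z * z = 0) ∧
      (z * (z * (x * z)) = z * (x * z * z) ∨ z * (z * (x * z)) = -(z * (x * z * z))) ∧
      z * (z * (z * (x * z))) = 0 := by
    rintro x ⟨⟨hx, h1⟩, h2⟩
    have h1' : z * (z * x) + x * star z * star z = 0 := h1
    have h2' : z * (z * (x * star z)) + z * (x * star z * star z) = 0 := h2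
    have h3' : z * (z * (z * (x * star z))) = 0 := hx.2 3 1 rfl
    refine ⟨hx.1, ?_⟩
    rcases hz with hz | hz
    · rw [hz] at h1' h2' h3'
      exact ⟨h1', Or.inr (eq_neg_of_add_eq_zero_left h2'), h3'⟩
    · rw [hz] at h1' h2' h3'
      simp only [mul_neg, neg_mul, neg_neg] at h1' h2' h3'
      refine ⟨h1', Or.inl ?_, neg_eq_zero.1 h3'⟩
      have := eq_neg_of_add_eq_zero_left h2'
      exact neg_inj.1 this
  -- the elements `z x z*`
  set U1 := N2.map (mn z 1 1) with hU1
  have hU1A : U1 ≤ Am A := by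
    rintro _ ⟨x, hx, rfl⟩
    rw [mem_Am, star_mn, mem_Am.1 (facts x hx).1, map_neg]
  have hU1U1 : ∀ u ∈ U1, ∀ v ∈ U1, u * v = 0 := by
    rintro _ ⟨x, hx, rfl⟩ _ ⟨y, hy, rfl⟩
    change z * (x * star z) * (z * (y * star z)) = 0
    obtain ⟨-, f1, f2, -⟩ := facts x hx
    obtain ⟨-, -, -, f3⟩ := facts y hy
    have := zxz_mul f1 f2 f3
    rcases hz with hz | hz
    · rw [hz]
      exact this
    · rw [hz]
      simp only [mul_neg, neg_mul, neg_neg]
      exact this
  have hcU1 : Nat.card U1 ≤ a := card_zero ha hU1A hU1U1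
  set N3 : AddSubgroup A := N2 ⊓ (mn z 1 1).ker with hN3
  have hcard3 : Nat.card N2 ≤ Nat.card N3 * a := by
    rw [card_split (mn z 1 1) N2]
    exact Nat.mul_le_mul_left _ hcU1
  have facts3 : ∀ x ∈ N3, z * (x * z) = 0 := by
    rintro x ⟨-, hx⟩
    have hx' : z * (x * star z) = 0 := hx
    rcases hz with hz | hz
    · rw [hz] at hx'
      exact hx'
    · rw [hz, mul_neg, mul_neg] at hx'
      exact neg_eq_zero.1 hx'
  have hcU : Nat.card (N3.map (tau z)) ≤ a ^ 2 := by
    refine card_cube ha ?_ ?_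
    · rintro _ ⟨x, hx, rfl⟩
      exact tau_Am (facts x hx.1).1
    · rintro _ ⟨x, hx, rfl⟩ _ ⟨y, hy, rfl⟩ _ ⟨t, ht, rfl⟩
      rw [tau_apply, tau_apply, tau_apply]
      exact uvu hz (facts3 x hx) (facts3 y hy) (facts3 t ht) (facts y hy.1).2.1
  have hle : N3 ≤ N := fun x hx => hx.1.1.1
  have h5 := map_card (tau z) hle
  have hpos : 0 < Nat.card N3 := Nat.card_pos
  have h6 : Nat.card (N.map (tau z)) ≤ s ^ 2 * a ^ 3 := by
    refine Nat.le_of_mul_le_mul_right ?_ hpos
    calc _ ≤ _ := h5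
      _ ≤ ((Nat.card N3 * a) * s ^ 2) * a ^ 2 :=
        Nat.mul_le_mul (hcard2.trans (Nat.mul_le_mul_right _ hcard3)) hcU
      _ = _ := by ring
  calc _ ≤ _ := h6
    _ ≤ (a ^ 22) ^ 2 * a ^ 3 := Nat.mul_le_mul_right _ (Nat.pow_le_pow_left hsa 2)
    _ = _ := by ring

/-- For symmetric and skew `z` the group of all `z x + x z*`, `x` skew, is small. -/
theorem card_tau_symm (hodd : Odd (Nat.card A)) (hq : ∀ x : A, ∃ y, x + y + x * y = 0) {a : ℕ}
    (ha : ∀ E F : AddSubgroup A, Sec E F → Nat.card E ≤ a * Nat.card F) {z : A}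
    (hz : star z = z ∨ star z = -z) : Nat.card ((Am A).map (tau z)) ≤ a ^ 179 := by
  have h1 := card_Am_le hodd hq z
  have h2 := card_four hq ha hz
  have h3 : Lo (Am A) z 4 ≤ Am A := fun x hx => hx.1
  have h4 := map_card (tau z) h3
  have h5 := card_skLH hq ha hz
  have hpos : 0 < Nat.card (Lo (Am A) z 4) := Nat.card_pos
  refine Nat.le_of_mul_le_mul_right ?_ hpos
  calc _ ≤ _ := h4
    _ ≤ (Nat.card (Lo (Am A) z 4) * (a ^ 22) ^ 6) * a ^ 47 := by
      refine Nat.mul_le_mul (h1.trans ?_) h2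
      exact Nat.mul_le_mul_left _ (Nat.pow_le_pow_left h5 6)
    _ = _ := by ring

/-- The same for all elements. -/
theorem card_tau (hodd : Odd (Nat.card A)) (hq : ∀ x : A, ∃ y, x + y + x * y = 0) {a : ℕ}
    (ha : ∀ E F : AddSubgroup A, Sec E F → Nat.card E ≤ a * Nat.card F) (u : A) :
    Nat.card ((Am A).map (tau u)) ≤ a ^ 358 := by
  obtain ⟨w, hw⟩ : ∃ w : A, w + w = u := by
    have hinj : Function.Injective (fun w : A => w + w) := by
      intro x y hxy
      have h1 : x + x = y + y := hxy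
      have h2 : (x - y) + (x - y) = 0 := by
        have : (x - y) + (x - y) = (x + x) - (y + y) := by abel
        rw [this, h1, sub_self]
      exact sub_eq_zero.1 (half_zero hodd h2)
    exact (Finite.injective_iff_surjective.1 hinj) u
  have e1 : u = (w + star w) + (w - star w) := by rw [← hw]; abel
  have s1 : star (w + star w) = w + star w := by rw [star_add, star_star, add_comm]
  have s2 : star (w - star w) = -(w - star w) := by rw [star_sub, star_star, neg_sub]
  have c1 := card_tau_symm hodd hq ha (Or.inl s1)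
  have c2 := card_tau_symm hodd hq ha (Or.inr s2)
  have h1 : (Am A).map (tau u) ≤ (Am A).map (tau (w + star w)) ⊔ (Am A).map (tau (w - star w)) := by
    rintro _ ⟨x, hx, rfl⟩
    have e2 : tau u = tau (w + star w) + tau (w - star w) := by
      conv_lhs => rw [e1]
      exact tau_add _ _
    rw [e2, AddMonoidHom.add_apply]
    exact AddSubgroup.add_mem_sup ⟨x, hx, rfl⟩ ⟨x, hx, rfl⟩
  have h2 := card_sup_mul ((Am A).map (tau (w + star w))) ((Am A).map (tau (w - star w)))
  have h3 : 0 < Nat.card ((Am A).map (tau (w + star w)) ⊓ (Am A).map (tau (w - star w)) :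
    AddSubgroup A) := Nat.card_pos
  calc _ ≤ _ := card_le_of_le h1
    _ ≤ _ := Nat.le_mul_of_pos_right _ h3
    _ = _ := h2
    _ ≤ a ^ 179 * a ^ 179 := Nat.mul_le_mul c1 c2
    _ = _ := by ring

end ring

end Pool.Agent.UNI
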