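import Pool.Agent.UNI.Four

/-!
# UNI: the greedy argument and the final count
-/

set_option autoImplicit false

namespace Pool.Agent.UNI

open Pool.Agent.MP_d12f76_al

section greedy

variable {M : Type*} [AddCommGroup M] [Finite M] {ι : Type*} [Finite ι] [Nonempty ι]

/-- The greedy argument for an additive family of endomorphisms. -/
theorem greedyT (T : ι → M →+ M) (hT : ∀ i j, ∃ k, T i + T j = T k) (S : ℕ) :
    ∀ E F : AddSubgroup M,
    (∀ z : ι, Nat.card (E.map (T z) ⊔ F : AddSubgroup M) ≤ S * Nat.card F) →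
    ∃ E' F' : AddSubgroup M, E' ≤ E ∧ F ≤ F' ∧ (∀ z : ι, E'.map (T z) ≤ F') ∧
      Nat.card E ≤ S ^ 2 * Nat.card E' ∧ Nat.card F' ≤ S ^ 2 * Nat.card F := by
  induction S using Nat.strong_induction_on with
  | _ S ih =>
  intro E F h
  obtain ⟨z, hz⟩ := Finite.exists_max
    (fun z : ι => Nat.card (E.map (T z) ⊔ F : AddSubgroup M))
  have hF0 : 0 < Nat.card F := Nat.card_pos
  set X := E.map (T z) ⊔ F with hXdef
  have hFX : F ≤ X := le_sup_right
  obtain ⟨S₀, hS₀⟩ : Nat.card F ∣ Nat.card X := AddSubgroup.card_dvd_of_le hFX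
  rw [mul_comm] at hS₀
  have hX0 : 0 < Nat.card X := Nat.card_pos
  have hS₀pos : 0 < S₀ := by
    rcases Nat.eq_zero_or_pos S₀ with h0 | h0
    · rw [h0, zero_mul] at hS₀; omega
    · exact h0
  have hS₀S : S₀ ≤ S := by
    have := h z
    rw [← hXdef, hS₀] at this
    exact Nat.le_of_mul_le_mul_right this hF0
  rcases Nat.lt_or_ge 1 S₀ with h1 | h1
  · set E₁ := E ⊓ F.comap (T z) with hE₁
    have hcardE : Nat.card E = S₀ * Nat.card E₁ := by
      have k1 : Nat.card E₁ * E₁.relIndex E = Nat.card E := by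
        rw [← AddSubgroup.relIndex_bot_left, ← AddSubgroup.relIndex_bot_left E]
        exact AddSubgroup.relIndex_mul_relIndex _ _ _ bot_le inf_le_left
      have k2 : E₁.relIndex E = F.relIndex X := by
        rw [hE₁, AddSubgroup.inf_relIndex_left, AddSubgroup.relIndex_comap, hXdef,
          AddSubgroup.relIndex_sup_right]
      have k3 : Nat.card F * F.relIndex X = Nat.card X := by
        rw [← AddSubgroup.relIndex_bot_left, ← AddSubgroup.relIndex_bot_left X]
        exact AddSubgroup.relIndex_mul_relIndex _ _ _ bot_le hFX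
      have k4 : F.relIndex X = S₀ := by
        rw [hS₀, mul_comm] at k3
        exact Nat.eq_of_mul_eq_mul_right hF0 k3
      rw [← k1, k2, k4, mul_comm]
    have hsq : Nat.sqrt S₀ < S := lt_of_lt_of_le (Nat.sqrt_lt_self h1) hS₀S
    have hnext : ∀ w : ι, Nat.card (E₁.map (T w) ⊔ X : AddSubgroup M) ≤
        Nat.sqrt S₀ * Nat.card X := by
      intro w
      have e := exchange (T z) (T w) E F S₀ hS₀ (hz w) (by
        obtain ⟨k, hk⟩ := hT z w
        rw [hk]
        exact hz k)
      rw [← hE₁, ← hXdef] at e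
      obtain ⟨t, ht⟩ : Nat.card X ∣ Nat.card (E₁.map (T w) ⊔ X : AddSubgroup M) :=
        AddSubgroup.card_dvd_of_le le_sup_right
      rw [ht] at e ⊢
      have e2 : t * t ≤ S₀ := by
        have e3 : t * t * Nat.card X ^ 2 ≤ S₀ * Nat.card X ^ 2 := by
          calc t * t * Nat.card X ^ 2 = (Nat.card X * t) ^ 2 := by ring
            _ ≤ _ := e
        exact Nat.le_of_mul_le_mul_right e3 (pow_pos hX0 2)
      rw [mul_comm]
      exact Nat.mul_le_mul_right _ (Nat.le_sqrt.2 e2)
    obtain ⟨E', F', hE', hF', hmap, c1, c2⟩ := ih (Nat.sqrt S₀) hsq E₁ X hnext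
    have hs2 : Nat.sqrt S₀ ^ 2 ≤ S₀ := Nat.sqrt_le' S₀
    refine ⟨E', F', hE'.trans inf_le_left, hFX.trans hF', hmap, ?_, ?_⟩
    · calc Nat.card E = S₀ * Nat.card E₁ := hcardE
        _ ≤ S * (S * Nat.card E') := by
          refine Nat.mul_le_mul hS₀S (c1.trans ?_)
          exact Nat.mul_le_mul_right _ (hs2.trans hS₀S)
        _ = S ^ 2 * Nat.card E' := by ring
    · calc Nat.card F' ≤ Nat.sqrt S₀ ^ 2 * Nat.card X := c2
        _ ≤ S * (S * Nat.card F) := by
          refine Nat.mul_le_mul (hs2.trans hS₀S) ?_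
          rw [hS₀]
          exact Nat.mul_le_mul_right _ hS₀S
        _ = S ^ 2 * Nat.card F := by ring
  · have hS₀1 : S₀ = 1 := by omega
    rw [hS₀1, one_mul] at hS₀
    have hone : 1 ≤ S ^ 2 := Nat.one_le_pow _ _ (by omega)
    refine ⟨E, F, le_rfl, le_rfl, ?_, Nat.le_mul_of_pos_left _ hone,
      Nat.le_mul_of_pos_left _ hone⟩
    intro w
    have e1 : Nat.card (E.map (T w) ⊔ F : AddSubgroup M) ≤ Nat.card F := (hz w).trans hS₀.le
    have e2 : F = E.map (T w) ⊔ F :=
      AddSubgroup.eq_of_le_of_card_ge le_sup_right e1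
    rw [e2]
    exact le_sup_left

end greedy

section ring

variable {A : Type*} [NonUnitalRing A]

/-- Right quasi-inverses are left quasi-inverses. -/
theorem qleft (hq : ∀ x : A, ∃ y, x + y + x * y = 0) {u v : A} (h : u + v + u * v = 0) :
    v + u + v * u = 0 := by
  obtain ⟨w, hw⟩ := hq v
  have e : w = u := by
    have e1 : (u + v + u * v) + w + (u + v + u * v) * w =
        u + (v + w + v * w) + u * (v + w + v * w) := by
      simp only [add_mul, mul_add, mul_assoc]
      abel
    rw [h, hw, mul_zero, zero_mul] at e1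
    simpa using e1
  rw [← e]
  exact hw

variable [StarRing A]

/-- The congruence `x ↦ (1 + u) x (1 + u)*`. -/
def phi (u : A) : A →+ A where
  toFun x := (x + u * x) + (x + u * x) * star u
  map_zero' := by simp
  map_add' x y := by
    simp only [add_mul, mul_add]
    abel

theorem phi_apply (u x : A) : phi u x = (x + u * x) + (x + u * x) * star u := rfl

theorem phi_inj (hq : ∀ x : A, ∃ y, x + y + x * y = 0) (u : A) :
    Function.Injective (phi u) := by
  rw [injective_iff_map_eq_zero]
  intro x hx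
  rw [phi_apply] at hx
  obtain ⟨v, hv⟩ := hq (star u)
  obtain ⟨w, hw⟩ := hq u
  have hw' := qleft hq hw
  have h1 : x + u * x = 0 := by
    have e : ((x + u * x) + (x + u * x) * star u) + ((x + u * x) + (x + u * x) * star u) * v =
        (x + u * x) + (x + u * x) * (star u + v + star u * v) := by
      generalize x + u * x = y
      simp only [add_mul, mul_add, mul_assoc]
      abel
    rw [hx, hv, mul_zero, zero_mul, add_zero, add_zero] at e
    exact e.symm
  have e : (x + u * x) + w * (x + u * x) = x + (w + u + w * u) * x := by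
    simp only [add_mul, mul_add, mul_assoc]
    abel
  rw [h1, hw', mul_zero, zero_mul, add_zero, add_zero] at e
  exact e.symm

theorem phi_Am {u x : A} (hx : x ∈ Am A) : phi u x ∈ Am A := by
  rw [mem_Am, phi_apply]
  simp only [star_add, star_mul, star_star, mem_Am.1 hx, add_mul, mul_add, mul_neg, neg_mul,
    mul_assoc, neg_add_rev]
  abel

theorem conj_exists (hq : ∀ x : A, ∃ y, x + y + x * y = 0) (u v : A) :
    ∃ v', v' + u * v' = v + v * u := by
  obtain ⟨w, hw⟩ := hq u
  refine ⟨v + w * v + v * u + w * (v * u), ?_⟩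
  have e : v + w * v + v * u + w * (v * u) + u * (v + w * v + v * u + w * (v * u)) =
      v + v * u + (u + w + u * w) * v + (u + w + u * w) * (v * u) := by
    simp only [add_mul, mul_add, mul_assoc]
    abel
  rw [e, hw, zero_mul, zero_mul, add_zero, add_zero]

theorem tau_phi {u v v' : A} (h : v' + u * v' = v + v * u) (x : A) :
    tau v (phi u x) = phi u (tau v' x) := by
  have h' : star v' + star v' * star u = star v + star u * star v := by
    have := congrArg star h
    rw [star_add, star_add, star_mul, star_mul] at this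
    exact this
  have e1 : phi u (v' * x) = v * phi u x := by
    rw [phi_apply, phi_apply]
    have e2 : v' * x + u * (v' * x) = v * (x + u * x) := by
      have : v' * x + u * (v' * x) = (v' + u * v') * x := by rw [add_mul, mul_assoc]
      rw [this, h, add_mul, mul_add, mul_assoc]
    rw [e2]
    simp only [mul_add, add_mul, mul_assoc]
  have e3 : phi u (x * star v') = phi u x * star v := by
    rw [phi_apply, phi_apply]
    have e4 : x * star v' + u * (x * star v') = (x + u * x) * star v' := by
      rw [add_mul, mul_assoc]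
    rw [e4]
    generalize x + u * x = y
    calc y * star v' + y * star v' * star u = y * (star v' + star v' * star u) := by
          rw [mul_add, mul_assoc]
      _ = y * (star v + star u * star v) := by rw [h']
      _ = (y + y * star u) * star v := by rw [mul_add, add_mul, mul_assoc]
  rw [tau_apply, tau_apply, map_add, e1, e3]

variable [Finite A]

/-- The final count. -/
theorem card_final (hodd : Odd (Nat.card A)) (hq : ∀ x : A, ∃ y, x + y + x * y = 0) {a : ℕ}
    (ha : ∀ E F : AddSubgroup A, Sec E F → Nat.card E ≤ a * Nat.card F) :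
    Nat.card (Am A) ≤ a ^ 1433 := by
  -- the greedy pair
  obtain ⟨E0, F0, hE0, -, hEF0, c1, c2⟩ := greedyT (fun u : A => tau u)
    (fun u v => ⟨u + v, (tau_add u v).symm⟩) (a ^ 358) (Am A) ⊥ (by
      intro u
      have := card_tau hodd hq ha u
      simpa using this)
  have hbot : Nat.card (⊥ : AddSubgroup A) = 1 := by simp
  rw [hbot, mul_one] at c2
  let P := {p : AddSubgroup A × AddSubgroup A // p.1 ≤ Am A ∧ ∀ u, p.1.map (tau u) ≤ p.2}
  have : Nonempty P := ⟨⟨(E0, F0), hE0, hEF0⟩⟩
  obtain ⟨⟨⟨E, F⟩, hE, hEF⟩, hmax⟩ := Finite.exists_max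
    (fun p : P => (toLex ((Nat.card p.1.1 : ℚ) / (Nat.card p.1.2 : ℚ), Nat.card p.1.1) : ℚ ×ₗ ℕ))
  have hE' : E ≤ Am A := hE
  have hEF' : ∀ u, E.map (tau u) ≤ F := hEF
  have hmax' : ∀ E' F' : AddSubgroup A, E' ≤ Am A → (∀ u, E'.map (tau u) ≤ F') →
      (Nat.card E' : ℚ) / (Nat.card F' : ℚ) < (Nat.card E : ℚ) / (Nat.card F : ℚ) ∨
      (Nat.card E' : ℚ) / (Nat.card F' : ℚ) = (Nat.card E : ℚ) / (Nat.card F : ℚ) ∧
        Nat.card E' ≤ Nat.card E := by
    intro E' F' h1 h2
    have := hmax ⟨(E', F'), h1, h2⟩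
    rw [Prod.Lex.toLex_le_toLex] at this
    exact this
  have hρ : ∀ E' F' : AddSubgroup A, E' ≤ Am A → (∀ u, E'.map (tau u) ≤ F') →
      Nat.card E' * Nat.card F ≤ Nat.card E * Nat.card F' := by
    intro E' F' h1 h2
    have h3 : (Nat.card E' : ℚ) / (Nat.card F' : ℚ) ≤ (Nat.card E : ℚ) / (Nat.card F : ℚ) := by
      rcases hmax' E' F' h1 h2 with h | h
      · exact h.le
      · exact h.1.le
    have p1 : (0 : ℚ) < Nat.card F' := by exact_mod_cast Nat.card_pos
    have p2 : (0 : ℚ) < Nat.card F := by exact_mod_cast Nat.card_pos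
    rw [div_le_div_iff₀ p1 p2] at h3
    exact_mod_cast h3
  -- congruences preserve `E`
  have hphi : ∀ u, E.map (phi u) ≤ E := by
    intro u
    have m1 : E.map (phi u) ≤ Am A := by
      rintro _ ⟨x, hx, rfl⟩
      exact phi_Am (hE' hx)
    have m2 : ∀ v, (E.map (phi u)).map (tau v) ≤ F.map (phi u) := by
      rintro v _ ⟨_, ⟨x, hx, rfl⟩, rfl⟩
      obtain ⟨v', hv'⟩ := conj_exists hq u v
      rw [tau_phi hv']
      exact ⟨tau v' x, hEF' v' ⟨x, hx, rfl⟩, rfl⟩
    have i1 : Nat.card (E.map (phi u)) = Nat.card E :=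
      Nat.card_congr (E.equivMapOfInjective (phi u) (phi_inj hq u)).toEquiv.symm
    have i2 : Nat.card (F.map (phi u)) = Nat.card F :=
      Nat.card_congr (F.equivMapOfInjective (phi u) (phi_inj hq u)).toEquiv.symm
    have j1 := hρ (E ⊓ E.map (phi u)) (F ⊓ F.map (phi u)) (inf_le_left.trans hE') (by
      rintro v _ ⟨x, ⟨hx, hx'⟩, rfl⟩
      exact ⟨hEF' v ⟨x, hx, rfl⟩, m2 v ⟨x, hx', rfl⟩⟩)
    have j2 := hmax' (E ⊔ E.map (phi u)) (F ⊔ F.map (phi u)) (sup_le hE' m1) (by
      intro v
      rw [AddSubgroup.map_sup]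
      exact sup_le_sup (hEF' v) (m2 v))
    have s1 := card_sup_mul E (E.map (phi u))
    have s2 := card_sup_mul F (F.map (phi u))
    rw [i1] at s1
    rw [i2] at s2
    have pE : 0 < Nat.card E := Nat.card_pos
    have pF : 0 < Nat.card F := Nat.card_pos
    have pFs : 0 < Nat.card (F ⊔ F.map (phi u) : AddSubgroup A) := Nat.card_pos
    have hle : Nat.card (E ⊔ E.map (phi u) : AddSubgroup A) ≤ Nat.card E := by
      rcases j2 with j2 | j2
      · exfalso
        have k1 : Nat.card E * Nat.card (F ⊔ F.map (phi u) : AddSubgroup A) ≤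
            Nat.card (E ⊔ E.map (phi u) : AddSubgroup A) * Nat.card F := by
          have pEF : 0 < Nat.card E * Nat.card F := Nat.mul_pos pE pF
          refine Nat.le_of_mul_le_mul_left ?_ pEF
          generalize Nat.card (E ⊔ E.map (phi u) : AddSubgroup A) = es at *
          generalize Nat.card (F ⊔ F.map (phi u) : AddSubgroup A) = fs at *
          generalize Nat.card (E ⊓ E.map (phi u) : AddSubgroup A) = em at *
          generalize Nat.card (F ⊓ F.map (phi u) : AddSubgroup A) = fm at *
          generalize Nat.card E = e at *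
          generalize Nat.card F = f at *
          calc e * f * (e * fs) = (e * e) * (f * fs) := by ring
            _ = (es * em) * (f * fs) := by rw [s1]
            _ = (em * f) * (es * fs) := by ring
            _ ≤ (e * fm) * (es * fs) := Nat.mul_le_mul_right _ j1
            _ = (e * es) * (fs * fm) := by ring
            _ = (e * es) * (f * f) := by rw [s2]
            _ = e * f * (es * f) := by ring
        have q1 : (0 : ℚ) < Nat.card (F ⊔ F.map (phi u) : AddSubgroup A) := by
          exact_mod_cast pFs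
        have q2 : (0 : ℚ) < Nat.card F := by exact_mod_cast pF
        rw [div_lt_div_iff₀ q1 q2] at j2
        have k2 : Nat.card (E ⊔ E.map (phi u) : AddSubgroup A) * Nat.card F <
            Nat.card E * Nat.card (F ⊔ F.map (phi u) : AddSubgroup A) := by
          exact_mod_cast j2
        omega
      · exact j2.2
    have heq : E = E ⊔ E.map (phi u) := AddSubgroup.eq_of_le_of_card_ge le_sup_left hle
    have hsup : E.map (phi u) ≤ E ⊔ E.map (phi u) := le_sup_right
    exact hsup.trans heq.ge
  have htau : ∀ u, ∀ x ∈ E, tau u x ∈ E := by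
    intro u x hx
    have h1 : phi u x ∈ E := hphi u ⟨x, hx, rfl⟩
    have h2 : phi (-u) x ∈ E := hphi (-u) ⟨x, hx, rfl⟩
    refine half_mem hodd ?_
    have e : tau u x + tau u x = phi u x - phi (-u) x := by
      rw [tau_apply, phi_apply, phi_apply, star_neg]
      simp only [add_mul, mul_neg, neg_mul]
      abel
    rw [e]
    exact sub_mem h1 h2
  have htau' : ∀ u, ∀ x ∈ E, tau u x ∈ E ⊓ F :=
    fun u x hx => ⟨htau u x hx, hEF' u ⟨x, hx, rfl⟩⟩
  have hsk : ∀ u, ∀ x ∈ E, sk (u * x) ∈ E ⊓ F := by
    intro u x hx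
    have e : sk (u * x) = tau u x := by
      rw [sk_apply, tau_apply, star_mul, mem_Am.1 (hE' hx), neg_mul, sub_neg_eq_add]
    rw [e]
    exact htau' u x hx
  have hsec : Sec E (E ⊓ F) := by
    refine ⟨inf_le_left, hE', ?_⟩
    intro x hx y hy r hr
    have e1 : r = -(x * y) - r * x * y := by
      have h0 : r = (r + x * y + r * (x * y)) - x * y - r * (x * y) := by abel
      rw [hr, zero_sub, ← mul_assoc] at h0
      exact h0
    have e2 : sk r ∈ E ⊓ F := by
      rw [e1, map_sub, map_neg]
      exact sub_mem (neg_mem (hsk _ _ hy)) (hsk _ _ hy)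
    have e3 : sk (y * r) ∈ E ⊓ F := by
      have : y * r = -(y * x * y) - y * r * x * y := by
        conv_lhs => rw [e1]
        rw [mul_sub, mul_neg]
        simp only [mul_assoc]
      rw [this, map_sub, map_neg]
      exact sub_mem (neg_mem (hsk _ _ hy)) (hsk _ _ hy)
    rw [map_add, map_add, map_add, map_add]
    exact add_mem (add_mem (add_mem (add_mem (hsk _ _ hx) e2) e3) (hsk _ _ hx)) (hsk _ _ hx)
  have c3 := ha _ _ hsec
  have c4 : Nat.card E ≤ a * Nat.card F :=
    c3.trans (Nat.mul_le_mul_left _ (card_le_of_le inf_le_right))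
  have c5 := hρ E0 F0 hE0 hEF0
  have pF : 0 < Nat.card F := Nat.card_pos
  have c6 : Nat.card E0 ≤ a * Nat.card F0 := by
    refine Nat.le_of_mul_le_mul_right ?_ pF
    calc _ ≤ _ := c5
      _ ≤ (a * Nat.card F) * Nat.card F0 := Nat.mul_le_mul_right _ c4
      _ = _ := by ring
  calc Nat.card (Am A) ≤ (a ^ 358) ^ 2 * Nat.card E0 := c1
    _ ≤ (a ^ 358) ^ 2 * (a * (a ^ 358) ^ 2) :=
      Nat.mul_le_mul_left _ (c6.trans (Nat.mul_le_mul_left _ c2))
    _ = a ^ 1433 := by ring

end ring

end Pool.Agent.UNI
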