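import Pool.Agent.UNI.Quot

/-!
# UNI: the right ideal `LH` of a symmetric or skew element
-/

set_option autoImplicit false

namespace Pool.Agent.UNI

open Pool.Agent.MP_d12f76_al

variable {A : Type*} [NonUnitalRing A] [StarRing A]

/-- The star map as additive homomorphism. -/
def stm (A : Type*) [NonUnitalRing A] [StarRing A] : A →+ A where
  toFun v := star v
  map_zero' := star_zero A
  map_add' := star_add

theorem mem_st {E : AddSubgroup A} {v : A} : v ∈ E.comap (stm A) ↔ star v ∈ E := Iff.rfl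

/-- The additive group generated by all `z ^ p y` killed by `z ^ p`. -/
def LH (z : A) : AddSubgroup A :=
  AddSubgroup.closure {v | ∃ (p : ℕ) (y : A), v = (Lm z)^[p] y ∧ (Lm z)^[p] v = 0}

theorem gen_mem {z : A} {p : ℕ} {y : A} (h : (Lm z)^[p] ((Lm z)^[p] y) = 0) :
    (Lm z)^[p] y ∈ LH z :=
  AddSubgroup.subset_closure ⟨p, y, rfl, h⟩

/-- Its image under the star. -/
def RH (z : A) : AddSubgroup A := (LH z).comap (stm A)

theorem LH_right {z v : A} (hv : v ∈ LH z) (c : A) : v * c ∈ LH z := by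
  have h : LH z ≤ (LH z).comap (Rm c) := by
    refine (AddSubgroup.closure_le _).2 ?_
    rintro v ⟨p, y, rfl, h⟩
    change (Lm z)^[p] y * c ∈ LH z
    rw [← iter_mul]
    refine gen_mem ?_
    rw [iter_mul, iter_mul, h, zero_mul]
  exact h hv

theorem RH_left {z v : A} (hv : v ∈ RH z) (c : A) : c * v ∈ RH z := by
  change star (c * v) ∈ LH z
  rw [star_mul]
  exact LH_right hv _

theorem star_iter {z : A} (hz : star z = z ∨ star z = -z) (q : ℕ) :
    (∀ y : A, star ((Lm z)^[q] y) = (Rm z)^[q] (star y)) ∨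
      ∀ y : A, star ((Lm z)^[q] y) = -(Rm z)^[q] (star y) := by
  induction q with
  | zero => exact Or.inl fun y => rfl
  | succ q ih =>
    have e1 : ∀ y, star ((Lm z)^[q + 1] y) = star ((Lm z)^[q] y) * star z := by
      intro y
      rw [Function.iterate_succ_apply']
      exact star_mul _ _
    have e2 : ∀ w, (Rm z)^[q + 1] w = (Rm z)^[q] w * z := by
      intro w
      rw [Function.iterate_succ_apply']
      rfl
    rcases hz with hz | hz <;> rcases ih with ih | ih
    · exact Or.inl fun y => by rw [e1, e2, ih, hz]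
    · exact Or.inr fun y => by rw [e1, e2, ih, hz, neg_mul]
    · exact Or.inr fun y => by rw [e1, e2, ih, hz, mul_neg]
    · exact Or.inl fun y => by rw [e1, e2, ih, hz, mul_neg, neg_mul, neg_neg]

theorem RH_mul_LH {z : A} (hz : star z = z ∨ star z = -z) {u v : A} (hu : u ∈ RH z)
    (hv : v ∈ LH z) : u * v = 0 := by
  have key : ∀ s ∈ LH z, ∀ w ∈ LH z, star s * w = 0 := by
    intro s hs w hw
    have h1 : LH z ≤ ((Rm w).comp (stm A)).ker := by
      refine (AddSubgroup.closure_le _).2 ?_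
      rintro s ⟨q, y', rfl, hs⟩
      have h2 : LH z ≤ (Lm (star ((Lm z)^[q] y'))).ker := by
        refine (AddSubgroup.closure_le _).2 ?_
        rintro w ⟨p, y, rfl, hw⟩
        change star ((Lm z)^[q] y') * (Lm z)^[p] y = 0
        rcases le_or_gt q p with hqp | hpq
        · obtain ⟨d, rfl⟩ := Nat.exists_eq_add_of_le hqp
          rw [Function.iterate_add_apply, mul_iter]
          have h3 : (Rm z)^[q] (star ((Lm z)^[q] y')) = 0 := by
            rcases star_iter hz q with h | h
            · have := h ((Lm z)^[q] y')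
              rw [hs, star_zero] at this
              exact this.symm
            · have := h ((Lm z)^[q] y')
              rw [hs, star_zero] at this
              exact neg_eq_zero.1 this.symm
          rw [h3, zero_mul]
        · obtain ⟨d, rfl⟩ := Nat.exists_eq_add_of_lt hpq
          have e2 : p + d + 1 = p + (d + 1) := by omega
          rcases star_iter hz (p + d + 1) with h | h
          · rw [h, e2, Function.iterate_add_apply, ← mul_iter, hw, mul_zero]
          · rw [h, e2, Function.iterate_add_apply, neg_mul, ← mul_iter, hw, mul_zero, neg_zero]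
      exact h2 hw
    exact h1 hs
  have := key (star u) hu v hv
  rw [star_star] at this
  exact this

/-- The intersection of `LH` and `RH`. -/
def WH (z : A) : AddSubgroup A := LH z ⊓ RH z

theorem LH_mul_RH {z u v : A} (hu : u ∈ LH z) (hv : v ∈ RH z) : u * v ∈ WH z :=
  ⟨LH_right hu v, RH_left hv u⟩

theorem star_WH {z v : A} (hv : v ∈ WH z) : star v ∈ WH z := by
  refine ⟨hv.2, ?_⟩
  change star (star v) ∈ LH z
  rw [star_star]
  exact hv.1

variable [Finite A]

theorem sec_sk (hq : ∀ x : A, ∃ y, x + y + x * y = 0) {z : A}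
    (hz : star z = z ∨ star z = -z) {E F : AddSubgroup A} (hWF : WH z ≤ F) (hFE : F ≤ E)
    (hE : E ≤ LH z) (hEE : ∀ x ∈ E, ∀ y ∈ E, x * y ∈ F) :
    Sec (E.map sk) (F.map sk) := by
  have hprod : ∀ u ∈ E ⊔ E.comap (stm A), ∀ v ∈ E ⊔ E.comap (stm A),
      u * v ∈ F ⊔ F.comap (stm A) := by
    intro u hu v hv
    obtain ⟨u1, hu1, u2, hu2, rfl⟩ := AddSubgroup.mem_sup.1 hu
    obtain ⟨v1, hv1, v2, hv2, rfl⟩ := AddSubgroup.mem_sup.1 hv
    have h1 : u1 * v1 ∈ F := hEE _ hu1 _ hv1
    have h2 : u1 * v2 ∈ F := hWF (LH_mul_RH (hE hu1) (hE hv2))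
    have h3 : u2 * v1 = 0 := RH_mul_LH hz (hE hu2) (hE hv1)
    have h4 : u2 * v2 ∈ F.comap (stm A) := by
      rw [mem_st, star_mul]
      exact hEE _ hv2 _ hu2
    have e : (u1 + u2) * (v1 + v2) = (u1 * v1 + u1 * v2) + u2 * v2 := by
      rw [add_mul, mul_add, mul_add, h3, zero_add]
    rw [e]
    exact AddSubgroup.add_mem_sup (add_mem h1 h2) h4
  have hS : F ⊔ F.comap (stm A) ≤ E ⊔ E.comap (stm A) :=
    sup_le_sup hFE (AddSubgroup.comap_mono hFE)
  have hskS : ∀ t ∈ F ⊔ F.comap (stm A), sk t ∈ F.map sk := by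
    intro t ht
    obtain ⟨f, hf, g, hg, rfl⟩ := AddSubgroup.mem_sup.1 ht
    rw [map_add]
    refine add_mem ⟨f, hf, rfl⟩ ?_
    refine ⟨-star g, neg_mem hg, ?_⟩
    rw [sk_apply, sk_apply, star_neg, star_star]
    abel
  have hin : ∀ x ∈ E.map sk, x ∈ E ⊔ E.comap (stm A) := by
    rintro _ ⟨v, hv, rfl⟩
    rw [sk_apply, sub_eq_add_neg]
    refine AddSubgroup.add_mem_sup hv ?_
    rw [mem_st, star_neg, star_star]
    exact neg_mem hv
  refine ⟨AddSubgroup.map_mono hFE, ?_, ?_⟩
  · rintro _ ⟨v, -, rfl⟩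
    exact sk_mem v
  · intro x hx y hy r hr
    have hx' := hin x hx
    have hy' := hin y hy
    have hc : x * y ∈ F ⊔ F.comap (stm A) := hprod _ hx' _ hy'
    have hrS : r ∈ F ⊔ F.comap (stm A) :=
      qi_mem hq hr hc fun s hs => hprod _ (hS hs) _ (hS hc)
    refine hskS _ ?_
    refine add_mem (add_mem (add_mem (add_mem ?_ hrS) ?_) ?_) ?_
    · exact hprod _ hy' _ hx'
    · exact hprod _ hy' _ (hS hrS)
    · exact hprod _ (hS hrS) _ hx'
    · exact hprod _ (hS (hprod _ hy' _ (hS hrS))) _ hx'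

theorem ker_sk {z : A} {E : AddSubgroup A} (hW : WH z ≤ E) (hE : E ≤ LH z) :
    (E ⊓ sk.ker : AddSubgroup A) = WH z ⊓ sk.ker := by
  refine le_antisymm ?_ (inf_le_inf_right _ hW)
  rintro v ⟨hv, hv'⟩
  have h1 : v - star v = 0 := hv'
  have h2 : v = star v := sub_eq_zero.1 h1
  refine ⟨⟨hE hv, ?_⟩, hv'⟩
  change star v ∈ LH z
  rw [← h2]
  exact hE hv

theorem card_skE (z : A) {E : AddSubgroup A} (hW : WH z ≤ E) (hE : E ≤ LH z) :
    Nat.card E = Nat.card (WH z ⊓ sk.ker : AddSubgroup A) * Nat.card (E.map sk) := by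
  rw [cardSplit sk E, ker_sk hW hE]

theorem card_LH_pair (hq : ∀ x : A, ∃ y, x + y + x * y = 0) {a : ℕ}
    (ha : ∀ E F : AddSubgroup A, Sec E F → Nat.card E ≤ a * Nat.card F) {z : A}
    (hz : star z = z ∨ star z = -z) {E F : AddSubgroup A} (hWF : WH z ≤ F) (hFE : F ≤ E)
    (hE : E ≤ LH z) (hEE : ∀ x ∈ E, ∀ y ∈ E, x * y ∈ F) : Nat.card E ≤ a * Nat.card F := by
  have h1 := ha _ _ (sec_sk hq hz hWF hFE hE hEE)
  rw [card_skE z (hWF.trans hFE) hE, card_skE z hWF (hFE.trans hE)]
  calc _ ≤ Nat.card (WH z ⊓ sk.ker : AddSubgroup A) * (a * Nat.card (F.map sk)) :=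
        Nat.mul_le_mul_left _ h1
    _ = _ := by ring

theorem card_LH (hq : ∀ x : A, ∃ y, x + y + x * y = 0) {a : ℕ}
    (ha : ∀ E F : AddSubgroup A, Sec E F → Nat.card E ≤ a * Nat.card F) {z : A}
    (hz : star z = z ∨ star z = -z) : Nat.card (LH z) ≤ a ^ 21 * Nat.card (WH z) := by
  let B : NonUnitalSubring A :=
    { LH z with
      mul_mem' := fun {u v} hu _ => LH_right hu v }
  let ι : B →+ A :=
    { toFun := fun b => (b : A)
      map_zero' := rfl
      map_add' := fun _ _ => rfl }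
  have hι : Function.Injective ι := Subtype.val_injective
  have hmem : ∀ b : B, (b : A) ∈ LH z := fun b => b.2
  have hcard : ∀ E : AddSubgroup B, Nat.card (E.map ι) = Nat.card E := by
    intro E
    exact Nat.card_congr (E.equivMapOfInjective ι hι).toEquiv.symm
  have hWW : ((WH z).comap ι).map ι = WH z := by
    refine le_antisymm (AddSubgroup.map_comap_le _ _) ?_
    intro w hw
    exact ⟨⟨w, hw.1⟩, hw, rfl⟩
  have key := card_le_pow_quot (B := B) ((WH z).comap ι) ?_ ?_ ?_ a ?_
  · have h1 : Nat.card B = Nat.card (LH z) := rfl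
    rw [h1, ← hcard, hWW] at key
    exact key
  · intro b w hw
    change (b : A) * (w : A) ∈ WH z
    exact LH_mul_RH (hmem b) hw.2
  · intro b w hw
    change (w : A) * (b : A) ∈ WH z
    have : (w : A) * (b : A) = 0 := RH_mul_LH hz hw.2 (hmem b)
    rw [this]
    exact zero_mem _
  · intro b
    obtain ⟨k, h1, h2⟩ := nil hq (b : A)
    have e1 : ∀ (n : ℕ) (x : B), (((Lm b)^[n] x : B) : A) = (Lm (b : A))^[n] (x : A) := by
      intro n
      induction n with
      | zero => intro x; rfl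
      | succ n ih =>
        intro x
        rw [Function.iterate_succ_apply, Function.iterate_succ_apply]
        exact ih (b * x)
    have e2 : ∀ (n : ℕ) (x : B), (((Rm b)^[n] x : B) : A) = (Rm (b : A))^[n] (x : A) := by
      intro n
      induction n with
      | zero => intro x; rfl
      | succ n ih =>
        intro x
        rw [Function.iterate_succ_apply, Function.iterate_succ_apply]
        exact ih (x * b)
    refine ⟨k, fun x => ?_, fun x => ?_⟩
    · apply Subtype.ext
      rw [e1, h1]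
      rfl
    · apply Subtype.ext
      rw [e2, h2]
      rfl
  · intro E F hWF hFE hEE
    rw [← hcard E, ← hcard F]
    refine card_LH_pair hq ha hz ?_ (AddSubgroup.map_mono hFE) ?_ ?_
    · rw [← hWW]
      exact AddSubgroup.map_mono hWF
    · rintro _ ⟨b, -, rfl⟩
      exact hmem b
    · rintro _ ⟨x, hx, rfl⟩ _ ⟨y, hy, rfl⟩
      exact ⟨x * y, hEE x hx y hy, rfl⟩

/-- The skew parts of the elements of `LH` form a group of order at most `a ^ 22`. -/
theorem card_skLH (hq : ∀ x : A, ∃ y, x + y + x * y = 0) {a : ℕ}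
    (ha : ∀ E F : AddSubgroup A, Sec E F → Nat.card E ≤ a * Nat.card F) {z : A}
    (hz : star z = z ∨ star z = -z) : Nat.card ((LH z).map sk) ≤ a ^ 22 := by
  have h1 := card_LH hq ha hz
  rw [card_skE z inf_le_left le_rfl, card_skE z le_rfl inf_le_left] at h1
  have h2 : Nat.card ((WH z).map sk) ≤ a := by
    refine card_zero ha ?_ ?_
    · rintro _ ⟨v, -, rfl⟩
      exact sk_mem v
    · have h3 : ∀ x ∈ (WH z).map sk, x ∈ WH z := by
        rintro _ ⟨v, hv, rfl⟩
        rw [sk_apply]
        exact sub_mem hv (star_WH hv)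
      intro x hx y hy
      exact RH_mul_LH hz (h3 x hx).2 (h3 y hy).1
  have hpos : 0 < Nat.card (WH z ⊓ sk.ker : AddSubgroup A) := Nat.card_pos
  have h4 : Nat.card ((LH z).map sk) ≤ a ^ 21 * Nat.card ((WH z).map sk) := by
    refine Nat.le_of_mul_le_mul_left ?_ hpos
    calc _ ≤ _ := h1
      _ = _ := by ring
  calc _ ≤ _ := h4
    _ ≤ a ^ 21 * a := Nat.mul_le_mul_left _ h2
    _ = a ^ 22 := by ring

end Pool.Agent.UNI
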