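import Pool.Agent.UNI.LH

/-!
# UNI: the Loewy argument
-/

set_option autoImplicit false

namespace Pool.Agent.UNI

open Pool.Agent.MP_d12f76_al

section count

variable {M : Type*} [AddCommGroup M] [Finite M]

theorem one_step (T : M →+ M) (X E E' : AddSubgroup M) (hE : E' ≤ E) (h : ∀ x ∈ X, T x ∈ E) :
    Nat.card X * Nat.card E' ≤ Nat.card (X ⊓ E'.comap T : AddSubgroup M) * Nat.card E := by
  have k1 : Nat.card (X ⊓ E'.comap T : AddSubgroup M) * (X ⊓ E'.comap T).relIndex X =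
      Nat.card X := by
    rw [← AddSubgroup.relIndex_bot_left, ← AddSubgroup.relIndex_bot_left X]
    exact AddSubgroup.relIndex_mul_relIndex _ _ _ bot_le inf_le_left
  have k2 : Nat.card E' * E'.relIndex E = Nat.card E := by
    rw [← AddSubgroup.relIndex_bot_left, ← AddSubgroup.relIndex_bot_left E]
    exact AddSubgroup.relIndex_mul_relIndex _ _ _ bot_le hE
  have k3 : (X ⊓ E'.comap T).relIndex X ≤ E'.relIndex E := by
    rw [AddSubgroup.inf_relIndex_left, AddSubgroup.relIndex_comap]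
    refine AddSubgroup.relIndex_le_of_le_right ?_ ?_
    · rintro _ ⟨x, hx, rfl⟩
      exact h x hx
    · intro h0
      rw [h0, mul_zero] at k2
      have : 0 < Nat.card E := Nat.card_pos
      omega
  rw [← k1, ← k2]
  calc _ = Nat.card (X ⊓ E'.comap T : AddSubgroup M) * Nat.card E' *
        (X ⊓ E'.comap T).relIndex X := by ring
    _ ≤ Nat.card (X ⊓ E'.comap T : AddSubgroup M) * Nat.card E' * E'.relIndex E :=
        Nat.mul_le_mul_left _ k3
    _ = _ := by ring

theorem three_steps (X N' : AddSubgroup M) (T1 T2 T3 : M →+ M)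
    (E1 E1' E2 E2' E3 E3' : AddSubgroup M) (l1 : E1' ≤ E1) (l2 : E2' ≤ E2) (l3 : E3' ≤ E3)
    (h1 : ∀ x ∈ X, T1 x ∈ E1) (h2 : ∀ x ∈ X, T2 x ∈ E2) (h3 : ∀ x ∈ X, T3 x ∈ E3)
    (hN : ∀ x ∈ X, T1 x ∈ E1' → T2 x ∈ E2' → T3 x ∈ E3' → x ∈ N') :
    Nat.card X * (Nat.card E1' * Nat.card E2' * Nat.card E3') ≤
      Nat.card N' * (Nat.card E1 * Nat.card E2 * Nat.card E3) := by
  have a1 := one_step T1 X E1 E1' l1 h1
  have a2 := one_step T2 (X ⊓ E1'.comap T1) E2 E2' l2 fun x hx => h2 x hx.1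
  have a3 := one_step T3 (X ⊓ E1'.comap T1 ⊓ E2'.comap T2) E3 E3' l3 fun x hx => h3 x hx.1.1
  have a4 : Nat.card (X ⊓ E1'.comap T1 ⊓ E2'.comap T2 ⊓ E3'.comap T3 : AddSubgroup M) ≤
      Nat.card N' := card_le_of_le fun x hx => hN x hx.1.1.1 hx.1.1.2 hx.1.2 hx.2
  generalize Nat.card (X ⊓ E1'.comap T1 ⊓ E2'.comap T2 ⊓ E3'.comap T3 : AddSubgroup M) = x3 at *
  generalize Nat.card (X ⊓ E1'.comap T1 ⊓ E2'.comap T2 : AddSubgroup M) = x2 at *
  generalize Nat.card (X ⊓ E1'.comap T1 : AddSubgroup M) = x1 at *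
  calc Nat.card X * (Nat.card E1' * Nat.card E2' * Nat.card E3')
      = (Nat.card X * Nat.card E1') * Nat.card E2' * Nat.card E3' := by ring
    _ ≤ (x1 * Nat.card E1) * Nat.card E2' * Nat.card E3' :=
        Nat.mul_le_mul_right _ (Nat.mul_le_mul_right _ a1)
    _ = Nat.card E1 * (x1 * Nat.card E2') * Nat.card E3' := by ring
    _ ≤ Nat.card E1 * (x2 * Nat.card E2) * Nat.card E3' :=
        Nat.mul_le_mul_right _ (Nat.mul_le_mul_left _ a2)
    _ = Nat.card E1 * Nat.card E2 * (x2 * Nat.card E3') := by ring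
    _ ≤ Nat.card E1 * Nat.card E2 * (x3 * Nat.card E3) := Nat.mul_le_mul_left _ a3
    _ ≤ Nat.card E1 * Nat.card E2 * (Nat.card N' * Nat.card E3) :=
        Nat.mul_le_mul_left _ (Nat.mul_le_mul_right _ a4)
    _ = _ := by ring

end count

section rel

variable {M : Type*} [AddCommGroup M]

theorem even_rel (hodd : Odd (Nat.card M)) (m : ℕ) (g : ℕ → M)
    (h1 : ∀ a ≤ m + 2, g (a + (m + 3)) + g a = 0)
    (h2 : ∀ a ≤ m + 1, g (a + (m + 4)) + g a = 0)
    (h3 : ∀ a ≤ m + 1, g (a + (m + 2)) + g (a + 2) = 0) :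
    ∀ i ≤ 2 * m + 5, g i = 0 := by
  have hc : ∀ a ≤ m + 2, g a = g 0 := by
    intro a
    induction a with
    | zero => intro _; rfl
    | succ a ih =>
      intro ha
      have e1 := h1 (a + 1) ha
      have e2 := h2 a (by omega)
      have e3 : a + 1 + (m + 3) = a + (m + 4) := by omega
      rw [e3] at e1
      rw [← ih (by omega)]
      exact add_left_cancel (e1.trans e2.symm)
  have h0 : g 0 = 0 := by
    have e1 := h3 0 (by omega)
    rw [zero_add, zero_add, hc _ le_rfl, hc 2 (by omega)] at e1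
    exact half_zero hodd e1
  have hlow : ∀ a ≤ m + 2, g a = 0 := fun a ha => (hc a ha).trans h0
  intro i hi
  rcases Nat.lt_or_ge i (m + 3) with h | h
  · exact hlow i (by omega)
  · obtain ⟨a, rfl⟩ := Nat.exists_eq_add_of_le' h
    have e1 := h1 a (by omega)
    rw [hlow a (by omega), add_zero] at e1
    exact e1

theorem odd_rel (hodd : Odd (Nat.card M)) (m : ℕ) (g : ℕ → M)
    (h1 : ∀ a ≤ m + 1, g (a + (m + 3)) + g a = 0)
    (h2 : ∀ a ≤ m + 1, g (a + (m + 2)) + g (a + 1) = 0)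
    (h3 : ∀ a ≤ m, g (a + (m + 4)) + g a = 0) :
    ∀ i ≤ 2 * m + 4, g i = 0 := by
  have hc : ∀ a ≤ m + 1, g a = g 0 := by
    intro a
    induction a with
    | zero => intro _; rfl
    | succ a ih =>
      intro ha
      have e1 := h1 (a + 1) ha
      have e2 := h3 a (by omega)
      have e3 : a + 1 + (m + 3) = a + (m + 4) := by omega
      rw [e3] at e1
      rw [← ih (by omega)]
      exact add_left_cancel (e1.trans e2.symm)
  have e1 := h2 0 (by omega)
  rw [zero_add, zero_add, hc 1 (by omega)] at e1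
  have e2 := h2 (m + 1) le_rfl
  have e3 := h1 m (by omega)
  have e4 : m + 1 + (m + 2) = m + (m + 3) := by omega
  rw [e4] at e2
  rw [hc m (by omega)] at e3
  have e5 : g (m + 1 + 1) = g 0 := add_left_cancel (e2.trans e3.symm)
  have h0 : g 0 = 0 := by
    have e6 : g (m + 2) = g 0 := e5
    rw [e6] at e1
    exact half_zero hodd e1
  have hlow : ∀ a ≤ m + 1, g a = 0 := fun a ha => (hc a ha).trans h0
  intro i hi
  rcases Nat.lt_or_ge i (m + 2) with h | h
  · exact hlow i (by omega)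
  · rcases Nat.lt_or_ge i (m + 3) with h' | h'
    · have : i = m + 1 + 1 := by omega
      rw [this, e5, h0]
    · obtain ⟨a, rfl⟩ := Nat.exists_eq_add_of_le' h'
      have e7 := h1 a (by omega)
      rw [hlow a (by omega), add_zero] at e7
      exact e7

end rel

section ring

variable {A : Type*} [NonUnitalRing A] [StarRing A]

/-- The monomial `z ^ i x (z*) ^ j`. -/
def mn (z : A) (i j : ℕ) : A →+ A where
  toFun x := (Lm z)^[i] ((Rm (star z))^[j] x)
  map_zero' := by rw [iterate_map_zero, iterate_map_zero]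
  map_add' x y := by rw [iterate_map_add, iterate_map_add]

theorem mn_apply (z : A) (i j : ℕ) (x : A) :
    mn z i j x = (Lm z)^[i] ((Rm (star z))^[j] x) := rfl

theorem lr_comm (z w : A) (i j : ℕ) (x : A) :
    (Lm z)^[i] ((Rm w)^[j] x) = (Rm w)^[j] ((Lm z)^[i] x) := by
  have h : Function.Commute (Lm z : A → A) (Rm w : A → A) := by
    intro x
    change z * (x * w) = z * x * w
    rw [mul_assoc]
  exact (h.iterate_iterate i j).eq x

theorem mn_mn (z : A) (i j k l : ℕ) (x : A) :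
    mn z i j (mn z k l x) = mn z (i + k) (j + l) x := by
  rw [mn_apply, mn_apply, mn_apply, Function.iterate_add_apply, Function.iterate_add_apply,
    lr_comm z (star z) k l, lr_comm z (star z) k j, lr_comm z (star z) k l]

theorem star_L (z : A) (i : ℕ) (x : A) : star ((Lm z)^[i] x) = (Rm (star z))^[i] (star x) := by
  induction i with
  | zero => rfl
  | succ i ih =>
    rw [Function.iterate_succ_apply', Function.iterate_succ_apply']
    change star (z * (Lm z)^[i] x) = (Rm (star z))^[i] (star x) * star z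
    rw [star_mul, ih]

theorem star_R (z : A) (i : ℕ) (x : A) : star ((Rm (star z))^[i] x) = (Lm z)^[i] (star x) := by
  induction i with
  | zero => rfl
  | succ i ih =>
    rw [Function.iterate_succ_apply', Function.iterate_succ_apply']
    change star ((Rm (star z))^[i] x * star z) = z * (Lm z)^[i] (star x)
    rw [star_mul, ih, star_star]

theorem star_mn (z : A) (i j : ℕ) (x : A) : star (mn z i j x) = mn z j i (star x) := by
  rw [mn_apply, mn_apply, star_L, star_R, lr_comm]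

/-- `z ^ p x (z*) ^ q + z ^ q x (z*) ^ p`. -/
def tp (z : A) (p q : ℕ) : A →+ A := mn z p q + mn z q p

theorem tp_apply (z : A) (p q : ℕ) (x : A) : tp z p q x = mn z p q x + mn z q p x := rfl

theorem tp_eq_sk {z x : A} (hx : x ∈ Am A) (p q : ℕ) : tp z p q x = sk (mn z p q x) := by
  rw [tp_apply, sk_apply, star_mn, mem_Am.1 hx, map_neg, sub_neg_eq_add]

/-- The elements of `P` killed by all monomials of degree `k`. -/
def Lo (P : AddSubgroup A) (z : A) (k : ℕ) : AddSubgroup A where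
  carrier := {x | x ∈ P ∧ ∀ i j, i + j = k → mn z i j x = 0}
  zero_mem' := ⟨zero_mem _, fun i j _ => map_zero _⟩
  add_mem' := by
    rintro x y ⟨hx, hx'⟩ ⟨hy, hy'⟩
    refine ⟨add_mem hx hy, fun i j h => ?_⟩
    rw [map_add, hx' i j h, hy' i j h, add_zero]
  neg_mem' := by
    rintro x ⟨hx, hx'⟩
    refine ⟨neg_mem hx, fun i j h => ?_⟩
    rw [map_neg, hx' i j h, neg_zero]

theorem mem_Lo {P : AddSubgroup A} {z : A} {k : ℕ} {x : A} :
    x ∈ Lo P z k ↔ x ∈ P ∧ ∀ i j, i + j = k → mn z i j x = 0 := Iff.rfl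

theorem Lo_ge {P : AddSubgroup A} {z : A} {k : ℕ} {x : A} (hx : x ∈ Lo P z k) {i j : ℕ}
    (h : k ≤ i + j) : mn z i j x = 0 := by
  obtain ⟨-, hx'⟩ := hx
  have e : mn z (i - min i k) (j - (k - min i k)) (mn z (min i k) (k - min i k) x) =
      mn z i j x := by
    rw [mn_mn]
    congr 2
    · omega
    · omega
  rw [← e, hx' _ _ (by omega), map_zero]

theorem Lo_mono {P : AddSubgroup A} {z : A} {k l : ℕ} (h : k ≤ l) : Lo P z k ≤ Lo P z l :=
  fun _ hx => ⟨hx.1, fun _ _ hij => Lo_ge hx (h.trans hij.ge)⟩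

theorem tp_mem {z x : A} {k : ℕ} (hx : x ∈ Lo (Am A) z k) {p q l : ℕ} (h1 : k ≤ p + p + q)
    (h2 : k ≤ l + (p + q)) : tp z p q x ∈ Lo ((LH z).map sk) z l := by
  refine ⟨?_, fun i j hij => ?_⟩
  · rw [tp_eq_sk hx.1]
    refine ⟨_, ?_, rfl⟩
    refine gen_mem ?_
    have h3 := Lo_ge hx h1
    rw [mn_apply, Function.iterate_add_apply] at h3
    exact h3
  · rw [tp_apply, map_add, mn_mn, mn_mn, Lo_ge hx (by omega), Lo_ge hx (by omega), add_zero]

theorem tp_rel {z x : A} {p q l : ℕ} (h : tp z p q x ∈ Lo ((LH z).map sk) z l) (a b : ℕ)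
    (hab : a + b = l) : mn z (a + p) (b + q) x + mn z (a + q) (b + p) x = 0 := by
  have := h.2 a b hab
  rw [tp_apply, map_add, mn_mn, mn_mn] at this
  exact this

variable [Finite A]

theorem even_step (hodd : Odd (Nat.card A)) (z : A) (m : ℕ) :
    Nat.card (Lo (Am A) z (2 * m + 6)) * (Nat.card (Lo ((LH z).map sk) z (m + 2)) *
      Nat.card (Lo ((LH z).map sk) z (m + 1)) * Nat.card (Lo ((LH z).map sk) z (m + 1))) ≤
    Nat.card (Lo (Am A) z (2 * m + 5)) * (Nat.card (Lo ((LH z).map sk) z (m + 3)) *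
      Nat.card (Lo ((LH z).map sk) z (m + 2)) * Nat.card (Lo ((LH z).map sk) z (m + 2))) := by
  refine three_steps _ _ (tp z (m + 3) 0) (tp z (m + 4) 0) (tp z (m + 2) 2) _ _ _ _ _ _
    (Lo_mono (by omega)) (Lo_mono (by omega)) (Lo_mono (by omega))
    (fun x hx => tp_mem hx (by omega) (by omega)) (fun x hx => tp_mem hx (by omega) (by omega))
    (fun x hx => tp_mem hx (by omega) (by omega)) ?_
  intro x hx t1 t2 t3
  refine ⟨hx.1, fun i j hij => ?_⟩
  have key := even_rel hodd m (fun i => mn z i (2 * m + 5 - i) x) ?_ ?_ ?_ i (by omega)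
  · have e : 2 * m + 5 - i = j := by omega
    rw [← e]
    exact key
  · intro a ha
    have := tp_rel t1 a (m + 2 - a) (by omega)
    have e1 : 2 * m + 5 - (a + (m + 3)) = m + 2 - a + 0 := by omega
    have e2 : 2 * m + 5 - a = m + 2 - a + (m + 3) := by omega
    change mn z (a + (m + 3)) (2 * m + 5 - (a + (m + 3))) x + mn z a (2 * m + 5 - a) x = 0
    rw [e1, e2]
    exact this
  · intro a ha
    have := tp_rel t2 a (m + 1 - a) (by omega)
    have e1 : 2 * m + 5 - (a + (m + 4)) = m + 1 - a + 0 := by omega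
    have e2 : 2 * m + 5 - a = m + 1 - a + (m + 4) := by omega
    change mn z (a + (m + 4)) (2 * m + 5 - (a + (m + 4))) x + mn z a (2 * m + 5 - a) x = 0
    rw [e1, e2]
    exact this
  · intro a ha
    have := tp_rel t3 a (m + 1 - a) (by omega)
    have e1 : 2 * m + 5 - (a + (m + 2)) = m + 1 - a + 2 := by omega
    have e2 : 2 * m + 5 - (a + 2) = m + 1 - a + (m + 2) := by omega
    change mn z (a + (m + 2)) (2 * m + 5 - (a + (m + 2))) x +
      mn z (a + 2) (2 * m + 5 - (a + 2)) x = 0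
    rw [e1, e2]
    exact this

theorem odd_step (hodd : Odd (Nat.card A)) (z : A) (m : ℕ) :
    Nat.card (Lo (Am A) z (2 * m + 5)) * (Nat.card (Lo ((LH z).map sk) z (m + 1)) *
      Nat.card (Lo ((LH z).map sk) z (m + 1)) * Nat.card (Lo ((LH z).map sk) z m)) ≤
    Nat.card (Lo (Am A) z (2 * m + 4)) * (Nat.card (Lo ((LH z).map sk) z (m + 2)) *
      Nat.card (Lo ((LH z).map sk) z (m + 2)) * Nat.card (Lo ((LH z).map sk) z (m + 1))) := by
  refine three_steps _ _ (tp z (m + 3) 0) (tp z (m + 2) 1) (tp z (m + 4) 0) _ _ _ _ _ _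
    (Lo_mono (by omega)) (Lo_mono (by omega)) (Lo_mono (by omega))
    (fun x hx => tp_mem hx (by omega) (by omega)) (fun x hx => tp_mem hx (by omega) (by omega))
    (fun x hx => tp_mem hx (by omega) (by omega)) ?_
  intro x hx t1 t2 t3
  refine ⟨hx.1, fun i j hij => ?_⟩
  have key := odd_rel hodd m (fun i => mn z i (2 * m + 4 - i) x) ?_ ?_ ?_ i (by omega)
  · have e : 2 * m + 4 - i = j := by omega
    rw [← e]
    exact key
  · intro a ha
    have := tp_rel t1 a (m + 1 - a) (by omega)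
    have e1 : 2 * m + 4 - (a + (m + 3)) = m + 1 - a + 0 := by omega
    have e2 : 2 * m + 4 - a = m + 1 - a + (m + 3) := by omega
    change mn z (a + (m + 3)) (2 * m + 4 - (a + (m + 3))) x + mn z a (2 * m + 4 - a) x = 0
    rw [e1, e2]
    exact this
  · intro a ha
    have := tp_rel t2 a (m + 1 - a) (by omega)
    have e1 : 2 * m + 4 - (a + (m + 2)) = m + 1 - a + 1 := by omega
    have e2 : 2 * m + 4 - (a + 1) = m + 1 - a + (m + 2) := by omega
    change mn z (a + (m + 2)) (2 * m + 4 - (a + (m + 2))) x +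
      mn z (a + 1) (2 * m + 4 - (a + 1)) x = 0
    rw [e1, e2]
    exact this
  · intro a ha
    have := tp_rel t3 a (m - a) (by omega)
    have e1 : 2 * m + 4 - (a + (m + 4)) = m - a + 0 := by omega
    have e2 : 2 * m + 4 - a = m - a + (m + 4) := by omega
    change mn z (a + (m + 4)) (2 * m + 4 - (a + (m + 4))) x + mn z a (2 * m + 4 - a) x = 0
    rw [e1, e2]
    exact this

theorem all_steps (hodd : Odd (Nat.card A)) (z : A) (m : ℕ) :
    Nat.card (Lo (Am A) z (2 * m + 5)) ≤ Nat.card (Lo (Am A) z 4) *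
      (Nat.card (Lo ((LH z).map sk) z (m + 2)) ^ 3 *
        Nat.card (Lo ((LH z).map sk) z (m + 1)) ^ 3) := by
  induction m with
  | zero =>
    have h := odd_step hodd z 0
    have p0 : 0 < Nat.card (Lo ((LH z).map sk) z 0) := Nat.card_pos
    have p1 : 0 < Nat.card (Lo ((LH z).map sk) z (0 + 1)) := Nat.card_pos
    have p2 : 0 < Nat.card (Lo ((LH z).map sk) z (0 + 2)) := Nat.card_pos
    simp only [Nat.mul_zero, Nat.zero_add] at h p1 p2 ⊢
    generalize Nat.card (Lo ((LH z).map sk) z 0) = e0 at *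
    generalize Nat.card (Lo ((LH z).map sk) z 1) = e1 at *
    generalize Nat.card (Lo ((LH z).map sk) z 2) = e2 at *
    generalize Nat.card (Lo (Am A) z 5) = n5 at *
    generalize Nat.card (Lo (Am A) z 4) = n4 at *
    calc n5 ≤ n5 * (e1 * e1 * e0) := Nat.le_mul_of_pos_right _ (by positivity)
      _ ≤ n4 * (e2 * e2 * e1) := h
      _ ≤ n4 * (e2 ^ 3 * e1 ^ 3) := by
        refine Nat.mul_le_mul_left _ (Nat.mul_le_mul ?_ ?_)
        · calc e2 * e2 = e2 ^ 2 := by ring
            _ ≤ e2 ^ 3 := Nat.pow_le_pow_right p2 (by omega)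
        · calc e1 = e1 ^ 1 := by ring
            _ ≤ e1 ^ 3 := Nat.pow_le_pow_right p1 (by omega)
  | succ m ih =>
    have h1 := odd_step hodd z (m + 1)
    have h2 := even_step hodd z m
    have p1 : 0 < Nat.card (Lo ((LH z).map sk) z (m + 1)) := Nat.card_pos
    have p2 : 0 < Nat.card (Lo ((LH z).map sk) z (m + 2)) := Nat.card_pos
    have f1 : 2 * (m + 1) + 5 = 2 * m + 7 := by ring
    have f2 : 2 * (m + 1) + 4 = 2 * m + 6 := by ring
    have f3 : m + 1 + 1 = m + 2 := by ring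
    have f4 : m + 1 + 2 = m + 3 := by ring
    rw [f1, f2, f3, f4] at h1
    rw [f1, f3, f4]
    generalize Nat.card (Lo ((LH z).map sk) z (m + 1)) = e1 at *
    generalize Nat.card (Lo ((LH z).map sk) z (m + 2)) = e2 at *
    generalize Nat.card (Lo ((LH z).map sk) z (m + 3)) = e3 at *
    generalize Nat.card (Lo (Am A) z (2 * m + 7)) = n7 at *
    generalize Nat.card (Lo (Am A) z (2 * m + 6)) = n6 at *
    generalize Nat.card (Lo (Am A) z (2 * m + 5)) = n5 at *
    generalize Nat.card (Lo (Am A) z 4) = n4 at *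
    have hpos : 0 < e2 ^ 3 * e1 ^ 3 := by positivity
    refine Nat.le_of_mul_le_mul_left ?_ hpos
    calc e2 ^ 3 * e1 ^ 3 * n7 = (n7 * (e2 * e2 * e1)) * (e2 * e1 * e1) := by ring
      _ ≤ (n6 * (e3 * e3 * e2)) * (e2 * e1 * e1) := Nat.mul_le_mul_right _ h1
      _ = (n6 * (e2 * e1 * e1)) * (e3 * e3 * e2) := by ring
      _ ≤ (n5 * (e3 * e2 * e2)) * (e3 * e3 * e2) := Nat.mul_le_mul_right _ h2
      _ = n5 * (e3 ^ 3 * e2 ^ 3) := by ring
      _ ≤ (n4 * (e2 ^ 3 * e1 ^ 3)) * (e3 ^ 3 * e2 ^ 3) := Nat.mul_le_mul_right _ ih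
      _ = _ := by ring

/-- The Loewy argument. -/
theorem card_Am_le (hodd : Odd (Nat.card A)) (hq : ∀ x : A, ∃ y, x + y + x * y = 0) (z : A) :
    Nat.card (Am A) ≤ Nat.card (Lo (Am A) z 4) * Nat.card ((LH z).map sk) ^ 6 := by
  obtain ⟨k, hk, -⟩ := nil hq z
  obtain ⟨l, -, hl⟩ := nil hq (star z)
  have h1 := all_steps hodd z (k + l)
  have h2 : Lo (Am A) z (2 * (k + l) + 5) = Am A := by
    refine le_antisymm (fun x hx => hx.1) fun x hx => ⟨hx, fun i j hij => ?_⟩
    rw [mn_apply]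
    rcases le_or_gt k i with h | h
    · obtain ⟨d, rfl⟩ := Nat.exists_eq_add_of_le h
      rw [Function.iterate_add_apply, hk]
    · obtain ⟨d, rfl⟩ : ∃ d, j = l + d := Nat.exists_eq_add_of_le (by omega)
      rw [Function.iterate_add_apply, hl, iterate_map_zero]
  rw [h2] at h1
  have h3 : ∀ n, Nat.card (Lo ((LH z).map sk) z n) ≤ Nat.card ((LH z).map sk) :=
    fun n => card_le_of_le fun x hx => hx.1
  calc _ ≤ _ := h1
    _ ≤ Nat.card (Lo (Am A) z 4) *
        (Nat.card ((LH z).map sk) ^ 3 * Nat.card ((LH z).map sk) ^ 3) :=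
      Nat.mul_le_mul_left _ (Nat.mul_le_mul (Nat.pow_le_pow_left (h3 _) 3)
        (Nat.pow_le_pow_left (h3 _) 3))
    _ = _ := by ring

end ring

end Pool.Agent.UNI
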