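import Pool.Agent.UNI.Def

/-!
# UNI: abelian sections of finite nil rings modulo an ideal
-/

set_option autoImplicit false

namespace Pool.Agent.UNI

open Pool.Agent.MP_d12f76_al

variable {B : Type*} [NonUnitalRing B]

/-- The congruence of an ideal. -/
def conOf (W : AddSubgroup B) (hl : ∀ b, ∀ w ∈ W, b * w ∈ W) (hr : ∀ b, ∀ w ∈ W, w * b ∈ W) :
    RingCon B where
  r x y := x - y ∈ W
  iseqv :=
    { refl := fun x => by rw [sub_self]; exact zero_mem _
      symm := fun {x y} h => by
        rw [← neg_sub]
        exact neg_mem h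
      trans := fun {x y z} h1 h2 => by
        have := add_mem h1 h2
        rw [sub_add_sub_cancel] at this
        exact this }
  add' := fun {w x y z} h1 h2 => by
    have := add_mem h1 h2
    have e : w + y - (x + z) = (w - x) + (y - z) := by abel
    change w + y - (x + z) ∈ W
    rw [e]
    exact this
  mul' := fun {w x y z} h1 h2 => by
    have := add_mem (hr y _ h1) (hl x _ h2)
    have e : w * y - x * z = (w - x) * y + x * (y - z) := by
      rw [sub_mul, mul_sub]
      abel
    change w * y - x * z ∈ W
    rw [e]
    exact this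

variable [Finite B]

theorem card_le_pow_quot (W : AddSubgroup B) (hl : ∀ b, ∀ w ∈ W, b * w ∈ W)
    (hr : ∀ b, ∀ w ∈ W, w * b ∈ W)
    (hnil : ∀ z : B, ∃ k, (∀ x, (Lm z)^[k] x = 0) ∧ ∀ x, (Rm z)^[k] x = 0) (a : ℕ)
    (ha : ∀ E F : AddSubgroup B, W ≤ F → F ≤ E → (∀ x ∈ E, ∀ y ∈ E, x * y ∈ F) →
      Nat.card E ≤ a * Nat.card F) :
    Nat.card B ≤ a ^ 21 * Nat.card W := by
  set c := conOf W hl hr with hc
  let π : B →+ c.Quotient :=
    { toFun := fun x => (x : c.Quotient)
      map_zero' := rfl
      map_add' := fun _ _ => rfl }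
  have hπ : ∀ x, π x = (x : c.Quotient) := fun _ => rfl
  have hsurj : Function.Surjective π := by
    intro q
    induction q using Quotient.inductionOn with
    | _ x => exact ⟨x, rfl⟩
  have hmul : ∀ x y, π (x * y) = π x * π y := fun _ _ => rfl
  have hker : ∀ x, π x = 0 ↔ x ∈ W := by
    intro x
    have h1 : π x = π 0 ↔ c x 0 := c.eq
    rw [map_zero] at h1
    rw [h1]
    change x - 0 ∈ W ↔ x ∈ W
    rw [sub_zero]
  have : Finite c.Quotient := Finite.of_surjective π hsurj
  have hcard : ∀ E' : AddSubgroup c.Quotient,
      Nat.card (E'.comap π) = Nat.card W * Nat.card E' := by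
    intro E'
    have h1 := cardSplit π (E'.comap π)
    have h2 : (E'.comap π ⊓ π.ker : AddSubgroup B) = W := by
      ext x
      constructor
      · rintro ⟨-, hx⟩
        exact (hker x).1 hx
      · intro hx
        refine ⟨?_, (hker x).2 hx⟩
        change π x ∈ E'
        rw [(hker x).2 hx]
        exact zero_mem _
    have h3 : (E'.comap π).map π = E' := AddSubgroup.map_comap_eq_self_of_surjective hsurj E'
    rw [h2, h3] at h1
    exact h1
  have hW : 0 < Nat.card W := Nat.card_pos
  have key : Nat.card c.Quotient ≤ a ^ 21 := by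
    refine card_le_pow ?_ a ?_
    · intro q
      obtain ⟨z, rfl⟩ := hsurj q
      obtain ⟨k, h1, h2⟩ := hnil z
      have e1 : ∀ (n : ℕ) (x : B), (Lm (π z))^[n] (π x) = π ((Lm z)^[n] x) := by
        intro n
        induction n with
        | zero => intro x; rfl
        | succ n ih =>
          intro x
          rw [Function.iterate_succ_apply, Function.iterate_succ_apply]
          exact ih (z * x)
      have e2 : ∀ (n : ℕ) (x : B), (Rm (π z))^[n] (π x) = π ((Rm z)^[n] x) := by
        intro n
        induction n with
        | zero => intro x; rfl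
        | succ n ih =>
          intro x
          rw [Function.iterate_succ_apply, Function.iterate_succ_apply]
          exact ih (x * z)
      refine ⟨k, fun x => ?_, fun x => ?_⟩
      · obtain ⟨x, rfl⟩ := hsurj x
        rw [e1, h1, map_zero]
      · obtain ⟨x, rfl⟩ := hsurj x
        rw [e2, h2, map_zero]
    · intro E' F' hFE hEE
      have h1 := ha (E'.comap π) (F'.comap π) (by
          intro x hx
          change π x ∈ F'
          rw [(hker x).2 hx]
          exact zero_mem _) (AddSubgroup.comap_mono hFE) (by
          intro x hx y hy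
          change π (x * y) ∈ F'
          rw [hmul]
          exact hEE _ hx _ hy)
      rw [hcard, hcard] at h1
      have h2 : Nat.card W * Nat.card E' ≤ Nat.card W * (a * Nat.card F') := by
        calc _ ≤ _ := h1
          _ = _ := by ring
      exact Nat.le_of_mul_le_mul_left h2 hW
  have htop := hcard ⊤
  have h4 : ((⊤ : AddSubgroup c.Quotient).comap π) = ⊤ := AddSubgroup.comap_top π
  rw [h4, AddSubgroup.card_top, AddSubgroup.card_top] at htop
  rw [htop, mul_comm]
  exact Nat.mul_le_mul_right _ key

end Pool.Agent.UNI
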